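import Pool.Agent.Lib.MP_42948a_nt.EX.F1
import Pool.Agent.Lib.MP_42948a_nt.BU.Main
import Pool.Agent.Lib.MP_42948a_nt.AC.Z2b

/-!
# Split primes of length `d ^ (1/4 + ..)`: partial sums
-/

namespace Pool.Agent.Lib.MP_42948a_nt.TR

open Finset Pool.Agent.Lib.MP_42948a_nt.OA Pool.Agent.Lib.MP_42948a_nt.AC Pool.Agent.Lib.MP_42948a_nt.TQ
  Pool.Agent.Lib.MP_42948a_nt.PS Pool.Agent.Lib.MP_42948a_nt.EX

/-- Burgess' bound for real characters, every modulus. -/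
theorem chi_burgess (κ : ℝ) (hκ : 0 < κ) : ∃ κ' : ℝ, 0 < κ' ∧ ∃ d0 : ℕ, ∀ d : ℕ, d0 ≤ d →
    ∀ ψ : (ZMod d)ˣ →* ℤˣ, ψ ≠ 1 → ∀ N : ℕ, (d : ℝ) ^ (1 / 4 + κ) ≤ (N : ℝ) →
      |∑ n ∈ Icc 1 N, chi ψ n| ≤ (N : ℝ) * (d : ℝ) ^ (-κ') := by
  obtain ⟨κ', hκ', d0, h0⟩ := Pool.Agent.Lib.MP_42948a_nt.BU.burgess_main 2 (by norm_num) κ hκ
  refine ⟨κ', hκ', d0, fun d hd ψ hψ N hN => ?_⟩
  have h1 := h0 d hd (dch ψ) (dch_ne ψ hψ) (dch_sq ψ) N hN
  have h2 : ∑ n ∈ Finset.Icc 1 N, dch ψ (n : ZMod d) = ((∑ n ∈ Icc 1 N, chi ψ n : ℝ) : ℂ) := by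
    rw [Complex.ofReal_sum]
    exact sum_congr rfl fun n _ => dch_nat ψ n
  rw [h2, Complex.norm_real, Real.norm_eq_abs] at h1
  exact h1

/-- Abel summation for the tail of the series of `f n / n`. -/
theorem abel_tail (f : ℕ → ℝ) (X : ℕ) (hX : 1 ≤ X) (δ : ℝ) (hδ : 0 ≤ δ)
    (h : ∀ N : ℕ, X ≤ N → |∑ n ∈ Icc 1 N, f n| ≤ N * δ) (Y : ℕ) (hY : X ≤ Y) :
    |LL f Y - LL f X| ≤ δ * (2 + (Real.log Y - Real.log X)) := by
  have hX0 : (0 : ℝ) < X := by exact_mod_cast hX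
  have key : ∀ Y : ℕ, X ≤ Y → |LL f Y - LL f X - (∑ n ∈ Icc 1 Y, f n) / Y| ≤
      δ * (1 + (Real.log Y - Real.log X)) := by
    intro Y hY
    induction Y, hY using Nat.le_induction with
    | base =>
      have h1 := h X le_rfl
      rw [sub_self, zero_sub, abs_neg, abs_div, abs_of_pos hX0, sub_self, add_zero, mul_one,
        div_le_iff₀ hX0, mul_comm]
      exact h1
    | succ Y hY ih =>
      have hY0 : (0 : ℝ) < Y := lt_of_lt_of_le hX0 (by exact_mod_cast hY)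
      have h1 := h Y hY
      have h2 : ∑ n ∈ Icc 1 (Y + 1), f n = ∑ n ∈ Icc 1 Y, f n + f (Y + 1) :=
        Finset.sum_Icc_succ_top (by omega) _
      have h3 : LL f (Y + 1) = LL f Y + f (Y + 1) / ((Y : ℝ) + 1) := by
        unfold LL
        rw [Finset.sum_Icc_succ_top (by omega)]
        push_cast
        rfl
      have h4 : LL f (Y + 1) - LL f X - (∑ n ∈ Icc 1 (Y + 1), f n) / ((Y + 1 : ℕ) : ℝ) =
          (LL f Y - LL f X - (∑ n ∈ Icc 1 Y, f n) / Y) +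
            (∑ n ∈ Icc 1 Y, f n) / (Y * ((Y : ℝ) + 1)) := by
        rw [h2, h3]
        push_cast
        field_simp
        ring
      rw [h4]
      refine (abs_add_le _ _).trans ?_
      have h5 : |(∑ n ∈ Icc 1 Y, f n) / (Y * ((Y : ℝ) + 1))| ≤ δ * (1 / ((Y : ℝ) + 1)) := by
        rw [abs_div, abs_of_pos (by positivity : (0 : ℝ) < Y * ((Y : ℝ) + 1)), div_le_iff₀ (by positivity)]
        calc |∑ n ∈ Icc 1 Y, f n| ≤ Y * δ := h1
          _ = δ * (1 / ((Y : ℝ) + 1)) * (Y * ((Y : ℝ) + 1)) := by field_simp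
      have h6 : 1 / ((Y : ℝ) + 1) ≤ Real.log ((Y : ℝ) + 1) - Real.log Y := by
        have h7 : Real.log ((Y : ℝ) / ((Y : ℝ) + 1)) ≤ (Y : ℝ) / ((Y : ℝ) + 1) - 1 :=
          Real.log_le_sub_one_of_pos (by positivity)
        rw [Real.log_div hY0.ne' (by positivity)] at h7
        have h8 : (Y : ℝ) / ((Y : ℝ) + 1) - 1 = -(1 / ((Y : ℝ) + 1)) := by
          field_simp
          ring
        linarith
      have h9 := mul_le_mul_of_nonneg_left h6 hδ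
      push_cast
      nlinarith [ih, h5, h9]
  have h1 := key Y hY
  have h2 := h Y hY
  have hY0 : (0 : ℝ) < Y := lt_of_lt_of_le hX0 (by exact_mod_cast hY)
  have h3 : |(∑ n ∈ Icc 1 Y, f n) / (Y : ℝ)| ≤ δ := by
    rw [abs_div, abs_of_pos hY0, div_le_iff₀ hY0, mul_comm]
    exact h2
  have h4 : LL f Y - LL f X = (LL f Y - LL f X - (∑ n ∈ Icc 1 Y, f n) / Y) +
      (∑ n ∈ Icc 1 Y, f n) / Y := by ring
  rw [h4]
  refine (abs_add_le _ _).trans ?_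
  nlinarith

/-- `Sw_bound` with partial sums up to `X` only. -/
theorem Sw_trunc (χ : ℕ → ℝ) (X : ℕ) (hX : 1 ≤ X) (M : ℝ)
    (hM : ∀ N : ℕ, N ≤ X → |∑ n ∈ Icc 1 N, χ n| ≤ M) (t : ℝ) (ht : 0 < t) (htX : t ≤ X) :
    |SwT χ X ∅ t - t / 2 * LL χ X| ≤ M * (2 + Real.log X) := by
  obtain ⟨χ', hχ'⟩ : ∃ χ' : ℕ → ℝ, χ' = fun n => if n ≤ X then χ n else 0 := ⟨_, rfl⟩
  have h1 : ∀ n : ℕ, n ≤ X → χ' n = χ n := by
    intro n hn
    rw [hχ']
    exact if_pos hn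
  have h2 : ∀ N : ℕ, |∑ n ∈ Icc 1 N, χ' n| ≤ M := by
    intro N
    have h3 : ∑ n ∈ Icc 1 N, χ' n = ∑ n ∈ Icc 1 (min N X), χ n := by
      rw [← sum_subset (s₁ := Icc 1 (min N X)) (s₂ := Icc 1 N)]
      · refine sum_congr rfl fun n hn => ?_
        rw [mem_Icc] at hn
        exact h1 n (hn.2.trans (min_le_right _ _))
      · intro n hn
        rw [mem_Icc] at hn ⊢
        exact ⟨hn.1, hn.2.trans (min_le_left _ _)⟩
      · intro n hn hn'
        rw [mem_Icc] at hn hn'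
        rw [hχ']
        refine if_neg fun h => hn' ⟨hn.1, le_min hn.2 h⟩
    rw [h3]
    exact hM _ (min_le_right _ _)
  have h4 := Sw_bound χ' M h2 X hX t ht htX
  have h5 : LL χ' X = LL χ X := by
    unfold LL
    refine sum_congr rfl fun n hn => ?_
    rw [mem_Icc] at hn
    rw [h1 n hn.2]
  have h6 : SwT χ' X ∅ t = SwT χ X ∅ t := by
    unfold SwT
    refine sum_congr rfl fun n hn => ?_
    rw [mem_filter, mem_Icc] at hn
    have h7 : rr χ' n = rr χ n := by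
      unfold rr
      refine sum_congr rfl fun a ha => ?_
      exact h1 a ((Nat.divisor_le ha).trans hn.1.2)
    rw [h7]
  rw [h5, h6] at h4
  exact h4

/-- `lower_sum` with the base estimate as hypothesis. -/
theorem lower_base (K : ℕ) (hK : SieveProp K) (z X : ℕ) (hz : 2 ≤ z) (hX : 1 ≤ X)
    (χ : ℕ → ℝ) (hmul : ∀ m n, χ (m * n) = χ m * χ n) (h1 : χ 1 = 1)
    (hv : ∀ n, χ n = 0 ∨ χ n = 1 ∨ χ n = -1) (E : ℝ) (hE0 : 0 < E)
    (hbase : ∀ t : ℝ, 0 < t → t ≤ X → |SwT χ X ∅ t - t / 2 * LL χ X| ≤ E) (hLL : 0 ≤ LL χ X) :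
    (X : ℝ) * LL χ X / (8 * (z : ℝ) ^ 2) - (z : ℝ) ^ (3 * K) * E ≤
      ∑ n ∈ (Icc 1 X).filter (fun n => ∀ p ∈ PP z, ¬ p ∣ n), rr χ n * max 0 (1 - (n : ℝ) / X) := by
  have hX0 : (0 : ℝ) < X := by exact_mod_cast hX
  have hz0 : (0 : ℝ) < z := by
    have : 0 < z := by omega
    exact_mod_cast this
  have hs := hK z hz (Icc 1 X) (fun n => rr χ n * max 0 (1 - (n : ℝ) / X)) (gg χ)
    ((X : ℝ) / 2 * LL χ X) ((z : ℝ) ^ (2 * K) * E)
    (fun n _ => mul_nonneg (rr_nonneg χ hmul h1 hv n) (le_max_left _ _))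
    (fun p hp => by
      unfold PP at hp
      rw [mem_filter] at hp
      exact RI_gg χ hv hp.2)
    (by positivity) (by positivity)
    (fun T hT hprod => by
      have hTp : ∀ q ∈ T, q.Prime := by
        intro q hq
        have := hT hq
        unfold PP at this
        rw [mem_filter] at this
        exact this.2
      have h2 := SwT_bound χ hmul hv X E hbase T hTp X hX0 le_rfl
      unfold SwT at h2
      refine h2.trans ?_
      apply mul_le_mul_of_nonneg_right _ hE0.le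
      refine (RI_pow T hT).trans ?_
      rw [mul_comm 2 K, pow_mul]
      apply pow_le_pow_left₀ (Nat.cast_nonneg _)
      exact_mod_cast hprod)
  have h6 : (z : ℝ) ^ K * ((z : ℝ) ^ (2 * K) * E) = (z : ℝ) ^ (3 * K) * E := by
    rw [← mul_assoc, ← pow_add]
    congr 2
    ring
  have h7 : (X : ℝ) * LL χ X / (8 * (z : ℝ) ^ 2) = (X : ℝ) / 2 * LL χ X / (4 * (z : ℝ) ^ 2) := by
    field_simp
    ring
  rw [h7]
  linarith

end Pool.Agent.Lib.MP_42948a_nt.TR
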