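import Pool.Agent.Lib.MP_42948a_nt.TR.S5
import Pool.Agent.Lib.MP_42948a_nt.BM.N6
import Pool.Agent.Lib.MP_42948a_nt.OM.J2
import Pool.Agent.Lib.MP_42948a_nt.OM.C2
import Pool.Agent.Lib.MP_42948a_nt.OM.E2
import Pool.Agent.Lib.MP_42948a_nt.OA.ZA

/-!
# Few characters: the large sieve for rough numbers
-/

set_option linter.unusedSectionVars false

namespace Pool.Agent.Lib.MP_42948a_nt.TR

open Finset Pool.Agent.Lib.MP_42948a_nt.OA Pool.Agent.Lib.MP_42948a_nt.TQ Pool.Agent.Lib.MP_42948a_nt.PS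
  Pool.Agent.Lib.MP_42948a_nt.TF

private theorem S4_big (κ M : ℝ) (hκ : 0 < κ) : ∃ d0 : ℕ, ∀ d : ℕ, d0 ≤ d → M ≤ (d : ℝ) ^ κ := by
  have h1 := (tendsto_rpow_atTop hκ).comp tendsto_natCast_atTop_atTop
  obtain ⟨d0, hd0⟩ := Filter.eventually_atTop.1 (h1.eventually_ge_atTop M)
  exact ⟨d0, hd0⟩

private theorem S4_log (κ M : ℝ) (hκ : 0 < κ) : ∃ d0 : ℕ, ∀ d : ℕ, d0 ≤ d → 4 + M * Real.log d ≤ (d : ℝ) ^ κ := by
  have h1 := (isLittleO_log_rpow_atTop hκ).def (show 0 < 1 / (2 * (|M| + 1)) by positivity)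
  have h2 := (tendsto_natCast_atTop_atTop (R := ℝ)).eventually h1
  have h3 := ((tendsto_rpow_atTop hκ).comp (tendsto_natCast_atTop_atTop (R := ℝ))).eventually_ge_atTop 8
  obtain ⟨d0, hd0⟩ := Filter.eventually_atTop.1 (h2.and (h3.and (Filter.eventually_ge_atTop 1)))
  refine ⟨d0, fun d hd => ?_⟩
  obtain ⟨e1, e2, e3⟩ := hd0 d hd
  simp only [Function.comp_apply] at e2
  have e4 : 0 ≤ Real.log d := Real.log_nonneg (by exact_mod_cast e3)
  rw [Real.norm_of_nonneg e4, Real.norm_of_nonneg (by positivity)] at e1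
  have e5 : M * Real.log d ≤ (|M| + 1) * Real.log d := mul_le_mul_of_nonneg_right (by linarith [le_abs_self M]) e4
  have e6 : (|M| + 1) * Real.log d ≤ (|M| + 1) * (1 / (2 * (|M| + 1)) * (d : ℝ) ^ κ) :=
    mul_le_mul_of_nonneg_left e1 (by positivity)
  have e7 : (|M| + 1) * (1 / (2 * (|M| + 1)) * (d : ℝ) ^ κ) = (d : ℝ) ^ κ / 2 := by
    have : (|M| + 1) ≠ 0 := by positivity
    field_simp
  linarith

/-- the sum over a set of rough numbers is a sum over all the rough numbers of the window, with coefficients `0`, `1` -/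
private theorem S4_DA {d : ℕ} [NeZero d] (A N : Finset ℕ) (hAN : A ⊆ N) (hA : ∀ n ∈ A, n.Coprime d) :
    ∃ v : ℕ → ℂ, (∀ n, ‖v n‖ ≤ 1) ∧ ∀ χ : DirichletCharacter ℂ d, ‖DA A χ‖ = ‖OM.ac N v χ‖ := by
  classical
  refine ⟨fun n => if n ∈ A then 1 else 0, fun n => ?_, fun χ => ?_⟩
  · dsimp only
    split_ifs
    · rw [norm_one]
    · rw [norm_zero]
      norm_num
  · have h1 : OM.ac N (fun n => if n ∈ A then (1 : ℂ) else 0) χ = (starRingEnd ℂ) (DA A χ) := by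
      unfold OM.ac DA
      rw [map_sum, ← Finset.sum_filter_add_sum_filter_not N (fun n => n ∈ A)]
      have h2 : ∑ n ∈ N.filter (fun n => ¬ n ∈ A), (if n ∈ A then (1 : ℂ) else 0) / (n : ℂ) * χ (n : ZMod d) = 0 := by
        refine Finset.sum_eq_zero fun n hn => ?_
        rw [if_neg (Finset.mem_filter.1 hn).2, zero_div, zero_mul]
      have h3 : N.filter (fun n => n ∈ A) = A := by
        ext n
        rw [Finset.mem_filter]
        exact ⟨fun h => h.2, fun h => ⟨hAN h, h⟩⟩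
      rw [h2, add_zero, h3]
      refine Finset.sum_congr rfl fun n hn => ?_
      dsimp only
      rw [if_pos hn, map_mul, Complex.conj_ofReal, Complex.conj_conj]
      unfold ev
      rw [ucl_val (hA n hn)]
      push_cast
      rfl
    rw [h1, RCLike.norm_conj]

/-- (S4) few characters: the large sieve for rough numbers -/
theorem large_few (e κ' α1 a1 b1 : ℝ) (he : 0 < e) (hκ' : 0 < κ') (hα1 : 0 < α1) (ha : 1 / 4 + e < a1) (hab : a1 ≤ b1) :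
    ∃ c3 : ℝ, 0 < c3 ∧ ∃ C2 : ℝ, 0 < C2 ∧ ∃ d0 : ℕ, ∀ d : ℕ, d0 ≤ d → ∀ [NeZero d], BM.BurP e κ' d →
      ∀ A : Finset ℕ, (∀ n ∈ A, Rough ⌊(d : ℝ) ^ α1⌋₊ n ∧ n.Coprime d ∧ (d : ℝ) ^ a1 < n ∧ (n : ℝ) ≤ (d : ℝ) ^ b1) →
        ∀ X : Finset (DirichletCharacter ℂ d), (X.card : ℝ) ≤ (d : ℝ) ^ c3 → ∑ χ ∈ X, ‖DA A χ‖ ^ 2 ≤ C2 := by
  obtain ⟨C1, hC1, hMM⟩ := OM.MM_le
  obtain ⟨ν, hν0, hνA, hνFF⟩ := OM.FF_near
  obtain ⟨B, hB⟩ := hνA 1
  obtain ⟨b0, hb0⟩ : ∃ b0 : ℕ, b0 = max B 2 := ⟨_, rfl⟩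
  have hb2 : (2 : ℝ) ≤ b0 := by
    rw [hb0]
    exact_mod_cast le_max_right _ _
  have hν1 : ν b0 ≤ 1 / 2 := by
    have h1 := hB b0 (by rw [hb0]; exact le_max_left _ _)
    rw [pow_one] at h1
    have h2 := mul_le_mul_of_nonneg_left hb2 (hν0 b0)
    linarith
  obtain ⟨K, hK⟩ : ∃ K : ℕ, K = 4 * b0 + 6 := ⟨_, rfl⟩
  have hKpos : (0 : ℝ) < K := by
    rw [hK]
    positivity
  obtain ⟨γ, hγ⟩ : ∃ γ : ℝ, γ = min (a1 - 1 / 4 - e) κ' := ⟨_, rfl⟩
  have hγ0 : 0 < γ := by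
    rw [hγ]
    exact lt_min (by linarith) hκ'
  have hγa : γ ≤ a1 - 1 / 4 - e := by
    rw [hγ]
    exact min_le_left _ _
  have hγκ : γ ≤ κ' := by
    rw [hγ]
    exact min_le_right _ _
  obtain ⟨δ, hδ⟩ : ∃ δ : ℝ, δ = min (γ / (8 * K)) α1 := ⟨_, rfl⟩
  have hδ0 : 0 < δ := by
    rw [hδ]
    exact lt_min (by positivity) hα1
  have hδα : δ ≤ α1 := by
    rw [hδ]
    exact min_le_right _ _
  have hδK : δ * K ≤ γ / 8 := by
    have h1 : δ ≤ γ / (8 * K) := by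
      rw [hδ]
      exact min_le_left _ _
    have h2 := mul_le_mul_of_nonneg_right h1 hKpos.le
    refine h2.trans (le_of_eq ?_)
    field_simp
  have ha0 : 0 < a1 := by linarith
  have hb10 : 0 < b1 := by linarith
  obtain ⟨W0, hW0⟩ : ∃ W0 : ℝ, W0 = 2 * C1 * b1 / δ := ⟨_, rfl⟩
  have hC10 : 0 < C1 := by linarith
  have hW0pos : 0 < W0 := by
    rw [hW0]
    positivity
  obtain ⟨n1, hn1⟩ := S4_big (δ / 2) 2 (by positivity)
  obtain ⟨n2, hn2⟩ := S4_big (1 / 8) 24 (by norm_num)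
  obtain ⟨n3, hn3⟩ := S4_big (7 * γ / 8) 4 (by positivity)
  obtain ⟨n4, hn4⟩ := S4_log (κ' / 2) (2 * b1) (by positivity)
  obtain ⟨n5, hn5⟩ := BB_le (1 / 8) (by norm_num)
  refine ⟨κ' / 4, by positivity, W0 * (2 * W0 + 2), by positivity, max (max (max n1 n2) (max n3 n4)) (max n5 2),
    fun d hd _ hBur A hA X hX => ?_⟩
  have k1 := hn1 d (by omega)
  have k2 := hn2 d (by omega)
  have k3 := hn3 d (by omega)
  have k4 := hn4 d (by omega)
  obtain ⟨-, k5⟩ := hn5 d (by omega)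
  have hd2 : 2 ≤ d := by omega
  have hD1 : (1 : ℝ) < (d : ℝ) := by exact_mod_cast (by omega : 1 < d)
  obtain ⟨D, hD⟩ : ∃ D : ℝ, D = (d : ℝ) := ⟨_, rfl⟩
  rw [← hD] at k1 k2 k3 k4 k5 hD1 hX
  have hD0 : 0 < D := by linarith
  have hmono : ∀ s t : ℝ, s ≤ t → D ^ s ≤ D ^ t := fun s t h => Real.rpow_le_rpow_of_exponent_le hD1.le h
  have hpos : ∀ s : ℝ, 0 < D ^ s := fun s => Real.rpow_pos_of_pos hD0 s
  obtain ⟨z, hz⟩ : ∃ z : ℕ, z = ⌊D ^ δ⌋₊ := ⟨_, rfl⟩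
  obtain ⟨y, hy⟩ : ∃ y : ℕ, y = ⌊D ^ a1⌋₊ := ⟨_, rfl⟩
  obtain ⟨y', hy'⟩ : ∃ y' : ℕ, y' = ⌊D ^ b1⌋₊ := ⟨_, rfl⟩
  have hzle : (z : ℝ) ≤ D ^ δ := by
    rw [hz]
    exact Nat.floor_le (hpos _).le
  have hhalf : ∀ s : ℝ, 2 ≤ D ^ s → D ^ s / 2 ≤ (⌊D ^ s⌋₊ : ℝ) := by
    intro s hs
    have := Nat.lt_floor_add_one (D ^ s)
    linarith
  have hδsq : D ^ δ = D ^ (δ / 2) * D ^ (δ / 2) := by
    rw [← Real.rpow_add hD0]
    congr 1
    ring
  have hδ4 : 4 ≤ D ^ δ := by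
    rw [hδsq]
    nlinarith
  have hzge : D ^ (δ / 2) ≤ (z : ℝ) := by
    have h1 := hhalf δ (by linarith)
    rw [← hz] at h1
    refine le_trans ?_ h1
    rw [hδsq]
    nlinarith [hpos (δ / 2)]
  have hz2 : 2 ≤ z := by
    have : (2 : ℝ) ≤ z := k1.trans hzge
    exact_mod_cast this
  have hzK : ((z ^ K : ℕ) : ℝ) ≤ D ^ (γ / 8) := by
    push_cast
    refine (pow_le_pow_left₀ (Nat.cast_nonneg _) hzle K).trans ?_
    rw [← Real.rpow_natCast, ← Real.rpow_mul hD0.le]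
    exact hmono _ _ hδK
  have hD8 : (1 : ℝ) ≤ D ^ (1 / 8 : ℝ) := by linarith
  have hDa : D ^ (1 / 4 : ℝ) = D ^ (1 / 8 : ℝ) * D ^ (1 / 8 : ℝ) := by
    rw [← Real.rpow_add hD0]
    norm_num
  have hDa2 : 2 ≤ D ^ a1 := by
    have h1 : D ^ (1 / 4 : ℝ) ≤ D ^ a1 := hmono _ _ (by linarith)
    nlinarith
  have hyge : D ^ a1 / 2 ≤ (y : ℝ) := by
    rw [hy]
    exact hhalf a1 hDa2
  have hyle : (y : ℝ) ≤ D ^ a1 := by
    rw [hy]
    exact Nat.floor_le (hpos _).le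
  have hyy : y ≤ y' := by
    rw [hy, hy']
    exact Nat.floor_le_floor (hmono _ _ hab)
  have hsplit : D ^ (1 / 4 + e) * D ^ (7 * γ / 8) * D ^ (γ / 8) ≤ D ^ a1 := by
    rw [← Real.rpow_add hD0, ← Real.rpow_add hD0]
    exact hmono _ _ (by linarith)
  have hq1 : 1 ≤ D ^ (1 / 4 + e) := by
    have := hmono 0 (1 / 4 + e) (by linarith)
    rwa [Real.rpow_zero] at this
  have hq2 : 1 ≤ D ^ (γ / 8) := by
    have := hmono 0 (γ / 8) (by linarith)
    rwa [Real.rpow_zero] at this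
  -- the natural quotient
  have hq : D ^ (1 / 4 + e) ≤ ((y / z ^ K : ℕ) : ℝ) := by
    have h1 : D ^ (1 / 4 + e) * 2 * ((z ^ K : ℕ) : ℝ) ≤ (y : ℝ) := by
      have h2 : D ^ (1 / 4 + e) * 4 * D ^ (γ / 8) ≤ D ^ a1 := by
        refine le_trans ?_ hsplit
        refine mul_le_mul_of_nonneg_right ?_ (hpos _).le
        exact mul_le_mul_of_nonneg_left k3 (hpos _).le
      have h3 : D ^ (1 / 4 + e) * 2 * ((z ^ K : ℕ) : ℝ) ≤ D ^ (1 / 4 + e) * 2 * D ^ (γ / 8) :=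
        mul_le_mul_of_nonneg_left hzK (by positivity)
      linarith
    have hzK0 : 0 < z ^ K := Nat.pow_pos (by omega)
    have hzK0' : (0 : ℝ) < ((z ^ K : ℕ) : ℝ) := by exact_mod_cast hzK0
    have h4 : (y : ℝ) < (((y / z ^ K : ℕ) : ℝ) + 1) * ((z ^ K : ℕ) : ℝ) := by
      have h5 := Nat.lt_div_mul_add hzK0 (a := y)
      have h6 : y < (y / z ^ K + 1) * z ^ K := by
        rw [add_mul, one_mul]
        exact h5
      exact_mod_cast h6
    have h7 : D ^ (1 / 4 + e) * 2 < ((y / z ^ K : ℕ) : ℝ) + 1 := by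
      by_contra hcon
      rw [not_lt] at hcon
      have := mul_le_mul_of_nonneg_right hcon hzK0'.le
      linarith
    linarith
  have h2z : 2 * z ^ K ≤ y := by
    have h1 : (2 : ℝ) * ((z ^ K : ℕ) : ℝ) ≤ (y : ℝ) := by
      have h2 : 4 * D ^ (γ / 8) ≤ D ^ a1 := by
        refine le_trans ?_ hsplit
        refine mul_le_mul_of_nonneg_right ?_ (hpos _).le
        have := mul_le_mul hq1 k3 (by norm_num) (hpos _).le
        linarith
      linarith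
    exact_mod_cast h1
  have hzy : z ≤ y' := by
    have h1 : z ≤ z ^ K := Nat.le_self_pow (by omega) z
    omega
  -- the total weight
  obtain ⟨W, hW⟩ : ∃ W : ℝ, W = OM.WW (OM.NN z d y y') := ⟨_, rfl⟩
  have hWn : 0 ≤ W := by
    rw [hW]
    unfold OM.WW
    positivity
  have hlogD : 0 < Real.log D := Real.log_pos hD1
  have hy'1 : 1 ≤ y' := by omega
  have hlogy' : Real.log y' ≤ b1 * Real.log D := by
    rw [← Real.log_rpow hD0]
    refine Real.log_le_log (by exact_mod_cast hy'1) ?_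
    rw [hy']
    exact Nat.floor_le (hpos _).le
  have hlogy0 : 0 ≤ Real.log y' := Real.log_nonneg (by exact_mod_cast hy'1)
  have hlogz : δ / 2 * Real.log D ≤ Real.log z := by
    rw [← Real.log_rpow hD0]
    exact Real.log_le_log (hpos _) hzge
  have hlogz0 : 0 < Real.log z := lt_of_lt_of_le (by positivity) hlogz
  have hWle : W ≤ W0 := by
    rw [hW]
    refine (OM.WW_NN_le d z y y').trans ((hMM z y' hz2 hzy).trans ?_)
    rw [hW0]
    have h1 : Real.log y' / Real.log z ≤ 2 * b1 / δ := by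
      rw [div_le_div_iff₀ hlogz0 hδ0]
      have h2 := mul_le_mul_of_nonneg_right hlogy' hδ0.le
      have h3 := mul_le_mul_of_nonneg_left hlogz (show 0 ≤ 2 * b1 by positivity)
      linarith
    refine (mul_le_mul_of_nonneg_left h1 hC10.le).trans (le_of_eq ?_)
    ring
  -- the members of the set
  have hsub : A ⊆ OM.NN z d y y' := by
    classical
    intro n hn
    obtain ⟨r1, r2, r3, r4⟩ := hA n hn
    rw [← hD] at r1 r3 r4
    unfold OM.NN OM.RR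
    rw [Finset.mem_filter, Finset.mem_filter, Finset.mem_Ioc]
    have hzα : z ≤ ⌊D ^ α1⌋₊ := by
      rw [hz]
      exact Nat.floor_le_floor (hmono _ _ hδα)
    refine ⟨⟨⟨?_, ?_⟩, ?_⟩, r2⟩
    · have : (y : ℝ) < n := lt_of_le_of_lt hyle r3
      exact_mod_cast this
    · rw [hy']
      exact Nat.le_floor r4
    · exact ⟨r1.1, fun p hp hpn => lt_of_le_of_lt hzα (r1.2 p hp hpn)⟩
  obtain ⟨v, hv1, hv2⟩ := S4_DA (d := d) A (OM.NN z d y y') hsub (fun n hn => (hA n hn).2.1)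
  have hmain := BM.rough_bessel e κ' he d hBur z b0 y y' hz2 (by rw [← hK]; exact h2z)
    (by rw [← hK, ← hD]; exact hq) hyy (ν b0) (hν0 b0) hν1 (fun g hg => hνFF z b0 g hg) X v hv1
  rw [← hW, ← hK, ← hD] at hmain
  have hzK' : (z : ℝ) ^ K ≤ D ^ (γ / 8) := by
    have := hzK
    push_cast at this
    exact this
  -- the error terms
  have hT : 3 * ((z : ℝ) ^ K * (4 * BM.TD d / y)) ≤ 1 := by
    have hTD : BM.TD d ≤ D ^ (1 / 8 : ℝ) := k5
    have hTD0 : 0 ≤ BM.TD d := by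
      unfold BM.TD
      positivity
    have hy0 : (0 : ℝ) < y := lt_of_lt_of_le (by linarith) hyge
    have h1 : 3 * ((z : ℝ) ^ K * (4 * BM.TD d / y)) = 12 * ((z : ℝ) ^ K * BM.TD d) / y := by ring
    rw [h1, div_le_one hy0]
    refine le_trans ?_ hyge
    have h2 : (z : ℝ) ^ K * BM.TD d ≤ D ^ (γ / 8) * D ^ (1 / 8 : ℝ) := mul_le_mul hzK' hTD hTD0 (hpos _).le
    have h3 : D ^ (γ / 8) * D ^ (1 / 8 : ℝ) * D ^ (1 / 8 : ℝ) ≤ D ^ a1 := by
      rw [← Real.rpow_add hD0, ← Real.rpow_add hD0]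
      exact hmono _ _ (by linarith)
    have h4 : D ^ (γ / 8) * D ^ (1 / 8 : ℝ) * 24 ≤ D ^ (γ / 8) * D ^ (1 / 8 : ℝ) * D ^ (1 / 8 : ℝ) :=
      mul_le_mul_of_nonneg_left k2 (mul_nonneg (hpos _).le (hpos _).le)
    linarith
  have hE : (X.card : ℝ) * ((z : ℝ) ^ K * (2 * (2 + Real.log y') * D ^ (-κ'))) ≤ 1 := by
    have h1 : 2 * (2 + Real.log y') ≤ D ^ (κ' / 2) := by
      refine le_trans ?_ k4
      linarith
    have h2 : (z : ℝ) ^ K ≤ D ^ (κ' / 8) := hzK'.trans (hmono _ _ (by linarith))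
    have h3 : (z : ℝ) ^ K * (2 * (2 + Real.log y') * D ^ (-κ')) ≤ D ^ (κ' / 8) * (D ^ (κ' / 2) * D ^ (-κ')) := by
      refine mul_le_mul h2 ?_ ?_ (hpos _).le
      · exact mul_le_mul_of_nonneg_right h1 (hpos _).le
      · have := hpos (-κ')
        positivity
    have h4 := mul_le_mul hX h3 (by have := hpos (-κ'); positivity) (hpos _).le
    refine h4.trans ?_
    rw [← Real.rpow_add hD0, ← Real.rpow_add hD0, ← Real.rpow_add hD0]
    have := hmono (κ' / 4 + (κ' / 8 + (κ' / 2 + -κ'))) 0 (by linarith)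
    rwa [Real.rpow_zero] at this
  have hsum : ∑ χ ∈ X, ‖DA A χ‖ ^ 2 = ∑ χ ∈ X, ‖OM.ac (OM.NN z d y y') v χ‖ ^ 2 :=
    Finset.sum_congr rfl fun χ _ => by rw [hv2 χ]
  rw [hsum]
  refine hmain.trans ?_
  have h5 : (1 + 2 * ν b0) * W ≤ 2 * W0 := by
    have h6 : (1 + 2 * ν b0) * W ≤ 2 * W := mul_le_mul_of_nonneg_right (by linarith) hWn
    linarith
  exact mul_le_mul hWle (by linarith) (by
    have := hpos (-κ')
    have h7 := hν0 b0
    have h8 : 0 ≤ BM.TD d := by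
      unfold BM.TD
      positivity
    positivity) hW0pos.le

end Pool.Agent.Lib.MP_42948a_nt.TR
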