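import Pool.Agent.Lib.MP_42948a_nt.TR.S5

/-!
# The mean square of the difference to the smoothed function, with few characters
-/

set_option linter.unusedSectionVars false

namespace Pool.Agent.Lib.MP_42948a_nt.TR

open Finset Pool.Agent.Lib.MP_42948a_nt.OA Pool.Agent.Lib.MP_42948a_nt.TQ Pool.Agent.Lib.MP_42948a_nt.PS
  Pool.Agent.Lib.MP_42948a_nt.TF

section
variable {d : ℕ} [NeZero d]

theorem prod_DA (P T P' W : Finset ℕ) (k : ℕ) (χ : DirichletCharacter ℂ d) :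
    ‖((List.replicate k P ++ [T, P', W]).map fun A => DA A χ).prod‖ =
      ‖DA P χ‖ ^ k * (‖DA T χ‖ * (‖DA P' χ‖ * ‖DA W χ‖)) := by
  rw [List.map_append, List.prod_append, List.map_replicate, List.prod_replicate, List.map_cons, List.map_cons, List.map_cons,
    List.map_nil, List.prod_cons, List.prod_cons, List.prod_cons, List.prod_nil, mul_one, norm_mul, norm_mul, norm_mul, norm_pow]

theorem av_dl : av (dl d) = 1 := by
  classical
  have hφ := phi_pos d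
  unfold av dl
  rw [Finset.sum_eq_single (1 : (ZMod d)ˣ)]
  · rw [if_pos rfl, div_self hφ.ne']
  · intro x _ hx
    rw [if_neg hx]
  · intro h
    exact absurd (Finset.mem_univ _) h

theorem Wt_nonneg' (A : Finset ℕ) : 0 ≤ Wt A := Finset.sum_nonneg fun n _ => by positivity

/-- the mean square of a product of three weights from the sup bound -/
theorem av_sq_three {R : ℝ} {T P' W : Finset ℕ} (hsup : ∀ x : (ZMod d)ˣ, mus [T, P', W] (dl d) x ≤ R) :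
    ∑ χ : DirichletCharacter ℂ d, (‖DA T χ‖ * (‖DA P' χ‖ * ‖DA W χ‖)) ^ 2 ≤ R * (Wt T * (Wt P' * Wt W)) := by
  have hφ := phi_pos d
  have h1 := av_sq_mus (d := d) [T, P', W] (dl d)
  have h2 : ∑ χ : DirichletCharacter ℂ d, ‖([T, P', W].map fun A => DA A χ).prod‖ ^ 2 *
      (‖SF (dl d) χ‖ / (Fintype.card (ZMod d)ˣ : ℝ)) ^ 2 = ∑ χ : DirichletCharacter ℂ d, (‖DA T χ‖ * (‖DA P' χ‖ * ‖DA W χ‖)) ^ 2 := by
    refine Finset.sum_congr rfl fun χ _ => ?_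
    have h3 := prod_DA ∅ T P' W 0 χ
    rw [List.replicate_zero, List.nil_append, pow_zero, one_mul] at h3
    rw [h3, SF_dl]
    have h4 : ‖(Fintype.card (ZMod d)ˣ : ℂ)‖ = (Fintype.card (ZMod d)ˣ : ℝ) := by
      rw [Complex.norm_natCast]
    rw [h4, div_self hφ.ne', one_pow, mul_one]
  rw [← h2, ← h1]
  have h5 : ∀ x : (ZMod d)ˣ, mus [T, P', W] (dl d) x ^ 2 ≤ R * mus [T, P', W] (dl d) x := by
    intro x
    have h6 := mus_nonneg [T, P', W] (F := dl d) (fun y => dl_nonneg y) x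
    nlinarith [hsup x]
  refine (av_mono h5).trans ?_
  rw [av_mul_left]
  have h7 := av_mus (d := d) [T, P', W] (dl d)
  rw [List.map_cons, List.map_cons, List.map_cons, List.map_nil, List.prod_cons, List.prod_cons, List.prod_cons, List.prod_nil,
    mul_one, av_dl, mul_one] at h7
  have h8 : av (fun x : (ZMod d)ˣ => mus [T, P', W] (dl d) x) = Wt T * (Wt P' * Wt W) := h7
  rw [h8]

/-- the mean square of the difference -/
theorem sq_diff {X : Finset (DirichletCharacter ℂ d)} {η Q : ℝ} {β : (ZMod d)ˣ → ℝ} {b : DirichletCharacter ℂ d → ℝ}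
    (hK : Ker X η Q β b) {v τ R C2 : ℝ} {P T P' W : Finset ℕ} {k : ℕ} (hk : 1 ≤ k) (hP : ∀ p ∈ P, p.Coprime d) (hWP : 0 < Wt P)
    (hX : ∀ χ, χ ∉ X → ‖Pa P χ‖ ≤ τ)
    (hsup : ∀ x : (ZMod d)ˣ, mus [T, P', W] (dl d) x ≤ R)
    (hLS : ∀ Ξ : Finset (DirichletCharacter ℂ d), (∀ χ ∈ Ξ, v ≤ ‖Pa P χ‖) → ∑ χ ∈ Ξ, ‖DA W χ‖ ^ 2 ≤ C2) :
    av (fun x => (mus (List.replicate k P ++ [T, P', W]) (dl d) x - mus (List.replicate k P ++ [T, P', W]) β x) ^ 2) ≤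
      Wt P ^ (2 * k) * (v ^ 2 * (R * (Wt T * (Wt P' * Wt W))) + (Wt T * Wt P') ^ 2 * ((τ ^ 2 + η ^ 2) * C2)) := by
  classical
  rw [av_sq_diff hK]
  have hk0 : k ≠ 0 := by omega
  have hb2 : ∀ χ, (1 - b χ) ^ 2 ≤ 1 := by
    intro χ
    have h1 := hK.b_nonneg χ
    have h2 := hK.b_le χ
    nlinarith
  have hDP : ∀ χ : DirichletCharacter ℂ d, ‖DA P χ‖ = Wt P * ‖Pa P χ‖ := DA_Pa P hP hWP
  have hPa1 : ∀ χ : DirichletCharacter ℂ d, ‖Pa P χ‖ ≤ 1 := by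
    intro χ
    have h1 := DA_le P χ
    rw [hDP] at h1
    by_contra h2
    push Not at h2
    nlinarith
  have hpw : ∀ y : ℝ, 0 ≤ y → y ≤ 1 → (y ^ k) ^ 2 ≤ y ^ 2 := by
    intro y hy hy1
    have h1 : y ^ k ≤ y := pow_le_of_le_one hy hy1 hk0
    exact pow_le_pow_left₀ (pow_nonneg hy _) h1 2
  rw [← Finset.sum_filter_add_sum_filter_not univ (fun χ : DirichletCharacter ℂ d => v ≤ ‖Pa P χ‖)]
  have hA : ∑ χ ∈ univ.filter (fun χ : DirichletCharacter ℂ d => v ≤ ‖Pa P χ‖),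
      ‖((List.replicate k P ++ [T, P', W]).map fun A => DA A χ).prod‖ ^ 2 * (1 - b χ) ^ 2 ≤
      Wt P ^ (2 * k) * ((Wt T * Wt P') ^ 2 * ((τ ^ 2 + η ^ 2) * C2)) := by
    have h1 := hLS (univ.filter fun χ : DirichletCharacter ℂ d => v ≤ ‖Pa P χ‖) (fun χ hχ => (Finset.mem_filter.1 hχ).2)
    have h2 : ∀ χ : DirichletCharacter ℂ d, ‖((List.replicate k P ++ [T, P', W]).map fun A => DA A χ).prod‖ ^ 2 * (1 - b χ) ^ 2 ≤
        Wt P ^ (2 * k) * ((Wt T * Wt P') ^ 2 * ((τ ^ 2 + η ^ 2) * ‖DA W χ‖ ^ 2)) := by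
      intro χ
      have h3 : (‖Pa P χ‖ ^ k) ^ 2 * (1 - b χ) ^ 2 ≤ τ ^ 2 + η ^ 2 := by
        by_cases hχ : χ ∈ X
        · have h4 := hK.big χ hχ
          have h5 := hK.b_le χ
          have h6 : (1 - b χ) ^ 2 ≤ η ^ 2 := by
            have : 0 ≤ 1 - b χ := by linarith
            exact pow_le_pow_left₀ this (by linarith) 2
          have h7 : (‖Pa P χ‖ ^ k) ^ 2 ≤ 1 := (hpw _ (norm_nonneg _) (hPa1 χ)).trans (by
            have := hPa1 χ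
            have := norm_nonneg (Pa P χ)
            nlinarith)
          calc (‖Pa P χ‖ ^ k) ^ 2 * (1 - b χ) ^ 2 ≤ 1 * η ^ 2 := mul_le_mul h7 h6 (sq_nonneg _) zero_le_one
            _ ≤ τ ^ 2 + η ^ 2 := by nlinarith [sq_nonneg τ]
        · have h4 := hX χ hχ
          have h5 : (‖Pa P χ‖ ^ k) ^ 2 ≤ τ ^ 2 := (hpw _ (norm_nonneg _) (hPa1 χ)).trans
            (pow_le_pow_left₀ (norm_nonneg _) h4 2)
          calc (‖Pa P χ‖ ^ k) ^ 2 * (1 - b χ) ^ 2 ≤ τ ^ 2 * 1 := mul_le_mul h5 (hb2 χ) (sq_nonneg _) (sq_nonneg _)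
            _ ≤ τ ^ 2 + η ^ 2 := by nlinarith [sq_nonneg η]
      have h8 : (‖DA T χ‖ * ‖DA P' χ‖) ^ 2 ≤ (Wt T * Wt P') ^ 2 :=
        pow_le_pow_left₀ (by positivity) (mul_le_mul (DA_le T χ) (DA_le P' χ) (norm_nonneg _) (Wt_nonneg' T)) 2
      rw [prod_DA, hDP]
      have h9 : ((Wt P * ‖Pa P χ‖) ^ k * (‖DA T χ‖ * (‖DA P' χ‖ * ‖DA W χ‖))) ^ 2 * (1 - b χ) ^ 2 =
          Wt P ^ (2 * k) * ((‖DA T χ‖ * ‖DA P' χ‖) ^ 2 * (((‖Pa P χ‖ ^ k) ^ 2 * (1 - b χ) ^ 2) * ‖DA W χ‖ ^ 2)) := by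
        ring
      rw [h9]
      refine mul_le_mul_of_nonneg_left ?_ (by positivity)
      refine mul_le_mul h8 (mul_le_mul_of_nonneg_right h3 (sq_nonneg _)) (by positivity) (sq_nonneg _)
    refine (Finset.sum_le_sum fun χ _ => h2 χ).trans ?_
    rw [← Finset.mul_sum, ← Finset.mul_sum, ← Finset.mul_sum]
    exact mul_le_mul_of_nonneg_left (mul_le_mul_of_nonneg_left (mul_le_mul_of_nonneg_left h1 (by positivity)) (sq_nonneg _))
      (by positivity)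
  have hB : ∑ χ ∈ univ.filter (fun χ : DirichletCharacter ℂ d => ¬ v ≤ ‖Pa P χ‖),
      ‖((List.replicate k P ++ [T, P', W]).map fun A => DA A χ).prod‖ ^ 2 * (1 - b χ) ^ 2 ≤
      Wt P ^ (2 * k) * (v ^ 2 * (R * (Wt T * (Wt P' * Wt W)))) := by
    have h2 : ∀ χ ∈ univ.filter (fun χ : DirichletCharacter ℂ d => ¬ v ≤ ‖Pa P χ‖),
        ‖((List.replicate k P ++ [T, P', W]).map fun A => DA A χ).prod‖ ^ 2 * (1 - b χ) ^ 2 ≤
        Wt P ^ (2 * k) * (v ^ 2 * (‖DA T χ‖ * (‖DA P' χ‖ * ‖DA W χ‖)) ^ 2) := by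
      intro χ hχ
      have h3 := (Finset.mem_filter.1 hχ).2
      push Not at h3
      have h4 : (‖Pa P χ‖ ^ k) ^ 2 ≤ v ^ 2 := (hpw _ (norm_nonneg _) (hPa1 χ)).trans
        (pow_le_pow_left₀ (norm_nonneg _) h3.le 2)
      have h5 : (‖Pa P χ‖ ^ k) ^ 2 * (1 - b χ) ^ 2 ≤ v ^ 2 * 1 := mul_le_mul h4 (hb2 χ) (sq_nonneg _) (sq_nonneg _)
      rw [mul_one] at h5
      rw [prod_DA, hDP]
      have h9 : ((Wt P * ‖Pa P χ‖) ^ k * (‖DA T χ‖ * (‖DA P' χ‖ * ‖DA W χ‖))) ^ 2 * (1 - b χ) ^ 2 =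
          Wt P ^ (2 * k) * (((‖Pa P χ‖ ^ k) ^ 2 * (1 - b χ) ^ 2) * (‖DA T χ‖ * (‖DA P' χ‖ * ‖DA W χ‖)) ^ 2) := by
        ring
      rw [h9]
      exact mul_le_mul_of_nonneg_left (mul_le_mul_of_nonneg_right h5 (sq_nonneg _)) (by positivity)
    refine (Finset.sum_le_sum h2).trans ?_
    rw [← Finset.mul_sum, ← Finset.mul_sum]
    refine mul_le_mul_of_nonneg_left (mul_le_mul_of_nonneg_left ?_ (sq_nonneg _)) (by positivity)
    refine le_trans ?_ (av_sq_three hsup)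
    exact Finset.sum_le_sum_of_subset_of_nonneg (Finset.filter_subset _ _) fun _ _ _ => sq_nonneg _
  calc _ ≤ Wt P ^ (2 * k) * ((Wt T * Wt P') ^ 2 * ((τ ^ 2 + η ^ 2) * C2)) +
        Wt P ^ (2 * k) * (v ^ 2 * (R * (Wt T * (Wt P' * Wt W)))) := add_le_add hA hB
    _ = _ := by ring

end

end Pool.Agent.Lib.MP_42948a_nt.TR
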