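import Pool.Agent.Lib.MP_42948a_nt.TR.S5
import Pool.Agent.Lib.MP_42948a_nt.PO.Q2
import Pool.Agent.Lib.MP_42948a_nt.OA.EE

/-!
# The trivial bound for a product of three weights (S7)

A number `n ≤ d ^ b` with all its prime factors `> d ^ c` has at most `4 ^ k` factorizations in three factors, and the sum of `1 / n` over a class
modulo `d`, `d < n ≤ d ^ b`, is at most `(1 + b log d) / d`.
-/

namespace Pool.Agent.Lib.MP_42948a_nt.TR

open Finset Pool.Agent.Lib.MP_42948a_nt.OA Pool.Agent.Lib.MP_42948a_nt.TQ Pool.Agent.Lib.MP_42948a_nt.PS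
  Pool.Agent.Lib.MP_42948a_nt.TF

/-- the number of factorizations of `n` in three factors -/
private theorem S7_rep (T P W : Finset ℕ) (n : ℕ) (hn : n ≠ 0) :
    ((T ×ˢ P ×ˢ W).filter (fun z => z.1 * z.2.1 * z.2.2 = n)).card ≤ n.divisors.card * n.divisors.card := by
  rw [← card_product]
  refine card_le_card_of_injOn (fun z => (z.1, z.2.1)) ?_ ?_
  · intro z hz
    rw [coe_filter, Set.mem_ofPred_eq] at hz
    rw [mem_coe, mem_product, Nat.mem_divisors, Nat.mem_divisors]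
    refine ⟨⟨?_, hn⟩, ?_, hn⟩
    · exact ⟨z.2.1 * z.2.2, by rw [← hz.2]; ring⟩
    · exact ⟨z.1 * z.2.2, by rw [← hz.2]; ring⟩
  · intro z hz y hy hzy
    rw [coe_filter, Set.mem_ofPred_eq] at hz hy
    simp only [Prod.mk.injEq] at hzy
    have h1 : z.1 * z.2.1 * z.2.2 = z.1 * z.2.1 * y.2.2 := by
      rw [hz.2, hzy.1, hzy.2, hy.2]
    have h2 : 0 < z.1 * z.2.1 := by
      rcases Nat.eq_zero_or_pos (z.1 * z.2.1) with h | h
      · exfalso
        apply hn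
        rw [← hz.2, h, zero_mul]
      · exact h
    exact Prod.ext hzy.1 (Prod.ext hzy.2 (Nat.eq_of_mul_eq_mul_left h2 h1))

/-- the sum of `1 / n` over the class of `x` -/
private theorem S7_class {d : ℕ} [NeZero d] (x : (ZMod d)ˣ) (N : ℕ) (S : Finset ℕ)
    (hS : ∀ n ∈ S, d < n ∧ n ≤ N ∧ (n : ZMod d) = (x : ZMod d)) :
    ∑ n ∈ S, 1 / (n : ℝ) ≤ 1 / (d : ℝ) * (1 + Real.log N) := by
  have hd : 0 < d := Nat.pos_of_ne_zero (NeZero.ne d)
  have hd0 : (0 : ℝ) < d := by exact_mod_cast hd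
  have hinj : Set.InjOn (fun n : ℕ => n / d) (S : Set ℕ) := by
    intro n hn m hm hnm
    have h1 : (n : ZMod d) = (m : ZMod d) := (hS n hn).2.2.trans (hS m hm).2.2.symm
    have h2 : n % d = m % d := (ZMod.natCast_eq_natCast_iff' n m d).mp h1
    have h3 : n / d = m / d := hnm
    rw [← Nat.div_add_mod n d, ← Nat.div_add_mod m d, h2, h3]
  have h1 : ∑ n ∈ S, 1 / (n : ℝ) ≤ ∑ n ∈ S, 1 / (d : ℝ) * (1 / ((n / d : ℕ) : ℝ)) := by
    refine sum_le_sum fun n hn => ?_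
    obtain ⟨h2, h3, h4⟩ := hS n hn
    have h5 : 0 < n / d := Nat.div_pos h2.le hd
    have h6 : (0 : ℝ) < ((n / d : ℕ) : ℝ) := by exact_mod_cast h5
    rw [one_div_mul_one_div]
    refine one_div_le_one_div_of_le (by positivity) ?_
    have h7 : d * (n / d) ≤ n := Nat.mul_div_le n d
    exact_mod_cast h7
  refine h1.trans ?_
  rw [← mul_sum]
  refine mul_le_mul_of_nonneg_left ?_ (by positivity)
  have h2 : ∑ n ∈ S, 1 / ((n / d : ℕ) : ℝ) = ∑ j ∈ S.image (fun n : ℕ => n / d), 1 / (j : ℝ) := by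
    rw [sum_image hinj]
  rw [h2]
  refine le_trans ?_ (EE_harm N)
  refine sum_le_sum_of_subset_of_nonneg ?_ fun j _ _ => by positivity
  intro j hj
  rw [mem_image] at hj
  obtain ⟨n, hn, rfl⟩ := hj
  obtain ⟨h2, h3, h4⟩ := hS n hn
  exact mem_Icc.mpr ⟨Nat.div_pos h2.le hd, (Nat.div_le_self n d).trans h3⟩

private theorem S7_ev (κ M : ℝ) (hκ : 0 < κ) : ∃ d0 : ℕ, ∀ d : ℕ, d0 ≤ d → M ≤ (d : ℝ) ^ κ := by
  have h1 := (tendsto_rpow_atTop hκ).comp (tendsto_natCast_atTop_atTop (R := ℝ))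
  obtain ⟨d0, hd0⟩ := Filter.eventually_atTop.1 (h1.eventually_ge_atTop M)
  exact ⟨d0, hd0⟩

/-- (S7) the trivial bound for three factors -/
theorem sup_three (c b : ℝ) (hc : 0 < c) (hb : 1 ≤ b) : ∃ R : ℝ, 0 < R ∧ ∃ d0 : ℕ, ∀ d : ℕ, d0 ≤ d → ∀ [NeZero d],
    ∀ T P W : Finset ℕ, (∀ t ∈ T, ∀ p ∈ P, ∀ w ∈ W, Rough ⌊(d : ℝ) ^ c⌋₊ (t * p * w) ∧ (t * p * w).Coprime d ∧
        d < t * p * w ∧ ((t * p * w : ℕ) : ℝ) ≤ (d : ℝ) ^ b) →
      ∀ x : (ZMod d)ˣ, mus [T, P, W] (dl d) x ≤ R * Real.log d := by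
  classical
  obtain ⟨k, hk⟩ : ∃ k : ℕ, 2 * b / c ≤ k := ⟨⌈2 * b / c⌉₊, Nat.le_ceil _⟩
  obtain ⟨d1, hd1⟩ := S7_ev (c / 2) 4 (by linarith)
  refine ⟨(2 ^ k * 2 ^ k) * (2 * b), by positivity, max d1 3, fun d hd _ T P W h x => ?_⟩
  have g1 := hd1 d ((le_max_left _ _).trans hd)
  have hd3 : 3 ≤ d := (le_max_right _ _).trans hd
  have hdr : (3 : ℝ) ≤ d := by exact_mod_cast hd3
  have hd0 : (0 : ℝ) < d := by linarith
  have hdone : (1 : ℝ) ≤ d := by linarith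
  have hlog : 1 ≤ Real.log d := by
    rw [Real.le_log_iff_exp_le hd0]
    have := Real.exp_one_lt_d9
    linarith
  obtain ⟨z, hz⟩ : ∃ z : ℕ, z = ⌊(d : ℝ) ^ c⌋₊ := ⟨_, rfl⟩
  have hcc : (d : ℝ) ^ c = (d : ℝ) ^ (c / 2) * (d : ℝ) ^ (c / 2) := by
    rw [← Real.rpow_add hd0]
    congr 1
    ring
  have hz1 : (d : ℝ) ^ (c / 2) ≤ z := by
    have h1 : (d : ℝ) ^ c < (z : ℝ) + 1 := by
      rw [hz]
      exact Nat.lt_floor_add_one _
    nlinarith
  have hz2 : 2 ≤ z := by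
    have h1 : (2 : ℝ) ≤ z := by linarith
    exact_mod_cast h1
  have hzk : (d : ℝ) ^ b ≤ (z : ℝ) ^ k := by
    calc (d : ℝ) ^ b ≤ (d : ℝ) ^ (c / 2 * k) := by
          refine Real.rpow_le_rpow_of_exponent_le hdone ?_
          rw [div_le_iff₀ hc] at hk
          linarith
      _ = ((d : ℝ) ^ (c / 2)) ^ k := by
          rw [Real.rpow_mul hd0.le, Real.rpow_natCast]
      _ ≤ (z : ℝ) ^ k := pow_le_pow_left₀ (Real.rpow_nonneg hd0.le _) hz1 k
  obtain ⟨φ, hφ⟩ : ∃ φ : ℝ, φ = (Fintype.card (ZMod d)ˣ : ℝ) := ⟨_, rfl⟩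
  have hφ0 : 0 < φ := by
    rw [hφ]
    exact phi_pos d
  have hφd : φ ≤ d := by
    rw [hφ, ZMod.card_units_eq_totient]
    exact_mod_cast Nat.totient_le d
  -- the good numbers
  obtain ⟨S, hS⟩ : ∃ S : Finset ℕ, S = (Icc 1 ⌊(d : ℝ) ^ b⌋₊).filter
      (fun n => d < n ∧ (n : ZMod d) = (x : ZMod d) ∧ n.divisors.card ≤ 2 ^ k) := ⟨_, rfl⟩
  -- expand
  have hexp : mus [T, P, W] (dl d) x = ∑ y ∈ T ×ˢ P ×ˢ W, 1 / ((y.1 * y.2.1 * y.2.2 : ℕ) : ℝ) *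
      dl d (x * (ucl d y.1)⁻¹ * (ucl d y.2.1)⁻¹ * (ucl d y.2.2)⁻¹) := by
    rw [mus_cons, mus_cons, mus_cons, mus_nil]
    unfold mu
    rw [sum_product]
    refine sum_congr rfl fun t _ => ?_
    rw [mul_sum, sum_product]
    refine sum_congr rfl fun p _ => ?_
    rw [mul_sum, mul_sum]
    refine sum_congr rfl fun w _ => ?_
    push_cast
    rw [← one_div_mul_one_div, ← one_div_mul_one_div]
    ring
  rw [hexp]
  -- every term is carried by a good number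
  have hterm : ∀ y ∈ T ×ˢ P ×ˢ W, 1 / ((y.1 * y.2.1 * y.2.2 : ℕ) : ℝ) *
      dl d (x * (ucl d y.1)⁻¹ * (ucl d y.2.1)⁻¹ * (ucl d y.2.2)⁻¹) ≤
      ∑ n ∈ S, if y.1 * y.2.1 * y.2.2 = n then φ * (1 / (n : ℝ)) else 0 := by
    intro y hy
    rw [mem_product, mem_product] at hy
    obtain ⟨h1, h2, h3, h4⟩ := h y.1 hy.1 y.2.1 hy.2.1 y.2.2 hy.2.2
    have hnn : 0 ≤ ∑ n ∈ S, if y.1 * y.2.1 * y.2.2 = n then φ * (1 / (n : ℝ)) else 0 := by
      refine sum_nonneg fun n _ => ?_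
      split_ifs
      · positivity
      · exact le_rfl
    unfold dl
    split_ifs with hc1
    · have c12 : (y.1 * y.2.1).Coprime d := Nat.Coprime.coprime_mul_right h2
      have c1 : (y.1).Coprime d := Nat.Coprime.coprime_mul_right c12
      have c2 : (y.2.1).Coprime d := Nat.Coprime.coprime_mul_left c12
      have c3 : (y.2.2).Coprime d := Nat.Coprime.coprime_mul_left h2
      have hx : ((y.1 * y.2.1 * y.2.2 : ℕ) : ZMod d) = (x : ZMod d) := by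
        have e1 : x = ucl d y.2.2 * ucl d y.2.1 * ucl d y.1 := by
          have e2 : x * (ucl d y.1)⁻¹ * (ucl d y.2.1)⁻¹ = ucl d y.2.2 := mul_inv_eq_one.mp hc1
          rw [← e2]
          group
        rw [e1]
        push_cast
        rw [ucl_val c1, ucl_val c2, ucl_val c3]
        ring
      have hmem : y.1 * y.2.1 * y.2.2 ∈ S := by
        rw [hS, mem_filter, mem_Icc]
        refine ⟨⟨by omega, Nat.le_floor h4⟩, h3, hx, ?_⟩
        rw [← hz] at h1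
        refine PO.div_rough z k _ hz2 h1 ?_
        have h5 := h4.trans hzk
        exact_mod_cast h5
      rw [sum_ite_eq, if_pos hmem, hφ, mul_comm]
    · rw [mul_zero]
      exact hnn
  refine (sum_le_sum hterm).trans ?_
  rw [sum_comm]
  have hS2 : ∀ n ∈ S, d < n ∧ n ≤ ⌊(d : ℝ) ^ b⌋₊ ∧ (n : ZMod d) = (x : ZMod d) := by
    intro n hn
    rw [hS, mem_filter, mem_Icc] at hn
    exact ⟨hn.2.1, hn.1.2, hn.2.2.1⟩
  have hcls := S7_class x ⌊(d : ℝ) ^ b⌋₊ S hS2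
  have hlogN : Real.log ⌊(d : ℝ) ^ b⌋₊ ≤ b * Real.log d := by
    have h1 : (1 : ℝ) ≤ (d : ℝ) ^ b := Real.one_le_rpow hdone (by linarith)
    have h2 : (⌊(d : ℝ) ^ b⌋₊ : ℝ) ≤ (d : ℝ) ^ b := Nat.floor_le (by linarith)
    have h3 : (0 : ℝ) < (⌊(d : ℝ) ^ b⌋₊ : ℝ) := by
      have : 1 ≤ ⌊(d : ℝ) ^ b⌋₊ := Nat.le_floor (by exact_mod_cast h1)
      exact_mod_cast this
    have h4 := Real.log_le_log h3 h2
    rwa [Real.log_rpow hd0] at h4
  calc ∑ n ∈ S, ∑ y ∈ T ×ˢ P ×ˢ W, (if y.1 * y.2.1 * y.2.2 = n then φ * (1 / (n : ℝ)) else 0)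
      ≤ ∑ n ∈ S, (2 ^ k * 2 ^ k) * (φ * (1 / (n : ℝ))) := by
        refine sum_le_sum fun n hn => ?_
        rw [← sum_filter, sum_const, nsmul_eq_mul]
        refine mul_le_mul_of_nonneg_right ?_ (by positivity)
        rw [hS, mem_filter, mem_Icc] at hn
        have h1 := S7_rep T P W n (by omega)
        have h2 : n.divisors.card * n.divisors.card ≤ 2 ^ k * 2 ^ k := Nat.mul_le_mul hn.2.2.2 hn.2.2.2
        exact_mod_cast h1.trans h2
    _ = (2 ^ k * 2 ^ k) * (φ * ∑ n ∈ S, 1 / (n : ℝ)) := by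
        rw [← mul_sum, ← mul_sum]
    _ ≤ (2 ^ k * 2 ^ k) * (d * (1 / (d : ℝ) * (1 + Real.log ⌊(d : ℝ) ^ b⌋₊))) := by
        refine mul_le_mul_of_nonneg_left ?_ (by positivity)
        exact mul_le_mul hφd hcls (sum_nonneg fun n _ => by positivity) hd0.le
    _ = (2 ^ k * 2 ^ k) * (1 + Real.log ⌊(d : ℝ) ^ b⌋₊) := by
        field_simp
    _ ≤ (2 ^ k * 2 ^ k) * (2 * b * Real.log d) := by
        refine mul_le_mul_of_nonneg_left ?_ (by positivity)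
        nlinarith
    _ = (2 ^ k * 2 ^ k) * (2 * b) * Real.log d := by ring

end Pool.Agent.Lib.MP_42948a_nt.TR
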