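import Pool.Agent.Lib.MP_42948a_nt.TF.FW
import Pool.Agent.Lib.MP_42948a_nt.SV.B1

/-!
# The mass of a short window, uniformly in its scale (job S9 of TR)

`PW d c (c+h)` are the primes of `(d^c, d^(c+h)]` not dividing `d`. By Mertens (`SV.mertA`) the primes of `(d^c, d^(c+h)]` have mass `log((c+h)/c) + O(1/(c log d))`, at least
`log(1 + h/hi) - C/(lo log d)`; the ones that divide `d` are at most `1/lo` in number and each has `1/p ≤ d^(-lo)`.
-/

namespace Pool.Agent.Lib.MP_42948a_nt.TR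

open Finset Pool.Agent.Lib.MP_42948a_nt.OA Pool.Agent.Lib.MP_42948a_nt.TQ Pool.Agent.Lib.MP_42948a_nt.PS
  Pool.Agent.Lib.MP_42948a_nt.TF

private theorem S9_small (w C lo : ℝ) (hw : 0 < w) (hlo : 0 < lo) : ∃ d0 : ℕ, ∀ d : ℕ, d0 ≤ d →
    2 ≤ d ∧ 2 ≤ (d : ℝ) ^ lo ∧ C ≤ w * (lo * Real.log d) ∧ 1 / lo ≤ w * (d : ℝ) ^ lo := by
  have h1 : Filter.Tendsto (fun d : ℕ => (d : ℝ) ^ lo) Filter.atTop Filter.atTop :=
    (tendsto_rpow_atTop hlo).comp tendsto_natCast_atTop_atTop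
  have h2 : Filter.Tendsto (fun d : ℕ => Real.log (d : ℝ)) Filter.atTop Filter.atTop :=
    Real.tendsto_log_atTop.comp tendsto_natCast_atTop_atTop
  have h3 := h1.eventually_ge_atTop (max 2 (1 / lo / w))
  have h4 := h2.eventually_ge_atTop (C / w / lo)
  have h5 := Filter.eventually_ge_atTop (2 : ℕ)
  obtain ⟨d0, hd0⟩ := Filter.eventually_atTop.1 (h3.and (h4.and h5))
  refine ⟨d0, fun d hd => ?_⟩
  obtain ⟨e1, e2, e3⟩ := hd0 d hd
  refine ⟨e3, (le_max_left _ _).trans e1, ?_, ?_⟩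
  · rw [div_le_iff₀ hlo, div_le_iff₀ hw] at e2
    linarith
  · have e4 := (le_max_right _ _).trans e1
    rw [div_le_iff₀ hw] at e4
    linarith

/-- (S9) the mass of a short window, uniformly in its scale -/
theorem mass_window (h lo hi : ℝ) (hh : 0 < h) (hlo : 0 < lo) (hlh : lo ≤ hi) : ∃ w0 : ℝ, 0 < w0 ∧ ∃ d0 : ℕ,
    ∀ d : ℕ, d0 ≤ d → ∀ c : ℝ, lo ≤ c → c ≤ hi → w0 ≤ Wt (PW d c (c + h)) := by
  have hhi : 0 < hi := lt_of_lt_of_le hlo hlh
  obtain ⟨lam, hlam⟩ : ∃ lam : ℝ, lam = Real.log (1 + h / hi) := ⟨_, rfl⟩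
  have hlam0 : 0 < lam := by
    rw [hlam]
    apply Real.log_pos
    have : 0 < h / hi := div_pos hh hhi
    linarith
  obtain ⟨C, hC0, hC⟩ := SV.mertA
  obtain ⟨d0, hd0⟩ := S9_small (lam / 4) C lo (by linarith) hlo
  refine ⟨lam / 2, by linarith, d0, fun d hd c hc1 hc2 => ?_⟩
  obtain ⟨e0, e1, e2, e3⟩ := hd0 d hd
  have hc0 : 0 < c := lt_of_lt_of_le hlo hc1
  have hd1 : (1 : ℝ) < d := by exact_mod_cast (by omega : 1 < d)
  have hdp : (0 : ℝ) < d := by linarith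
  have hL : 0 < Real.log d := Real.log_pos hd1
  have hlou : (d : ℝ) ^ lo ≤ (d : ℝ) ^ c := Real.rpow_le_rpow_of_exponent_le hd1.le hc1
  have hda : 0 < (d : ℝ) ^ lo := by positivity
  have huv : (d : ℝ) ^ c ≤ (d : ℝ) ^ (c + h) := Real.rpow_le_rpow_of_exponent_le hd1.le (by linarith)
  -- the primes of the window
  have hm := hC ((d : ℝ) ^ c) ((d : ℝ) ^ (c + h)) (e1.trans hlou) huv
  rw [Real.log_rpow hdp, Real.log_rpow hdp] at hm
  have hq : (c + h) * Real.log d / (c * Real.log d) = 1 + h / c := by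
    field_simp
  rw [hq] at hm
  have hmono : lam ≤ Real.log (1 + h / c) := by
    rw [hlam]
    apply Real.log_le_log
    · have : 0 < h / hi := div_pos hh hhi
      linarith
    · have : h / hi ≤ h / c := div_le_div_of_nonneg_left hh.le hc0 hc2
      linarith
  have herr : C / (c * Real.log d) ≤ lam / 4 := by
    rw [div_le_iff₀ (by positivity)]
    have : lam / 4 * (lo * Real.log d) ≤ lam / 4 * (c * Real.log d) :=
      mul_le_mul_of_nonneg_left (mul_le_mul_of_nonneg_right hc1 hL.le) (by linarith)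
    linarith
  have hmain := (abs_le.1 hm).1
  -- the ones that divide `d`
  obtain ⟨T, hT⟩ : ∃ T : Finset ℕ, T = SV.Pri ((d : ℝ) ^ c) ((d : ℝ) ^ (c + h)) := ⟨_, rfl⟩
  rw [← hT] at hmain
  set S := d.primeFactors.filter (fun p : ℕ => (d : ℝ) ^ lo < p) with hS
  have h1 : PW d c (c + h) = T.filter (fun p => ¬ p ∣ d) := by
    ext p
    simp only [PW, primesOff, hT, SV.Pri, Finset.mem_filter, Finset.mem_Icc, Finset.mem_Ioc]
    constructor
    · rintro ⟨⟨a, b⟩, c, e, f⟩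
      exact ⟨⟨⟨e, b⟩, c⟩, f⟩
    · rintro ⟨⟨⟨e, b⟩, c⟩, f⟩
      exact ⟨⟨c.one_lt.le, b⟩, c, e, f⟩
  have h2 : T.filter (fun p => p ∣ d) ⊆ S := by
    intro p hp
    simp only [hT, SV.Pri, Finset.mem_filter, Finset.mem_Ioc] at hp
    obtain ⟨⟨⟨a, b⟩, c⟩, e⟩ := hp
    rw [hS, Finset.mem_filter]
    exact ⟨Nat.mem_primeFactors.2 ⟨c, e, by omega⟩, lt_of_le_of_lt hlou (Nat.lt_of_floor_lt a)⟩
  have h3 : ∑ p ∈ T.filter (fun p => p ∣ d), 1 / (p : ℝ) ≤ lam / 4 := by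
    have h4 : ∑ p ∈ T.filter (fun p => p ∣ d), 1 / (p : ℝ) ≤ ∑ p ∈ S, 1 / (p : ℝ) :=
      Finset.sum_le_sum_of_subset_of_nonneg h2 fun p _ _ => by positivity
    have h5 : ∑ p ∈ S, 1 / (p : ℝ) ≤ ∑ p ∈ S, 1 / (d : ℝ) ^ lo := by
      refine Finset.sum_le_sum fun p hp => ?_
      exact one_div_le_one_div_of_le hda (Finset.mem_filter.1 hp).2.le
    rw [Finset.sum_const, nsmul_eq_mul] at h5
    have h6 : (S.card : ℝ) * (1 / (d : ℝ) ^ lo) ≤ 1 / lo * (1 / (d : ℝ) ^ lo) :=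
      mul_le_mul_of_nonneg_right (few_prime_divisors lo hlo d e0) (by positivity)
    have h7 : 1 / lo * (1 / (d : ℝ) ^ lo) ≤ lam / 4 := by
      rw [mul_one_div, div_le_iff₀ hda]
      exact e3
    linarith
  have h4 := Finset.sum_filter_add_sum_filter_not T (fun p => p ∣ d) (fun p : ℕ => 1 / (p : ℝ))
  unfold Wt
  rw [h1]
  linarith

end Pool.Agent.Lib.MP_42948a_nt.TR
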