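import Pool.Agent.Lib.MP_42948a_nt.TR.S10a
import Pool.Agent.Lib.MP_42948a_nt.TR.S6
import Pool.Agent.Lib.MP_42948a_nt.TR.S7
import Pool.Agent.Lib.MP_42948a_nt.TR.S9
import Pool.Agent.Lib.MP_42948a_nt.TR.S4
import Pool.Agent.Lib.MP_42948a_nt.TF.FW

/-!
# The classes of the wrong parity
-/

set_option linter.unusedSectionVars false

namespace Pool.Agent.Lib.MP_42948a_nt.TR

open Finset Pool.Agent.Lib.MP_42948a_nt.OA Pool.Agent.Lib.MP_42948a_nt.AC Pool.Agent.Lib.MP_42948a_nt.TQ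
  Pool.Agent.Lib.MP_42948a_nt.PS Pool.Agent.Lib.MP_42948a_nt.TF

/-- the wrong parity: if the threshold set of the products of `i` primes is almost the set `ψ = (-1) ^ i`, then almost all the classes with
`ψ = (-1) ^ (K - 1)`, `K = k + 2 + i`, contain a product of exactly `K` primes `> d ^ c`, at most `d ^ E` -/
theorem wrong_parity (θ c0 α aT hT uE E : ℝ) (i k : ℕ) (hθ : 1 / 4 < θ) (hθ1 : θ < aT) (hc0 : 0 < c0) (hα : 0 < α)
    (hα1 : α ≤ 1 / 4) (ha1 : aT + α < 3 / 4) (hhT : 0 < hT) (hu : 1 < aT + uE) (hE : 1 + hT + 2 * α * k < E) (hk : 1 ≤ k) :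
    ∃ σ0 c : ℝ, 0 < σ0 ∧ 0 < c ∧ ∀ k1 : ℝ, 0 < k1 → ∃ ε0 : ℝ, 0 < ε0 ∧ ∀ κ : ℝ, 0 < κ → ∃ τ0 : ℝ, 0 < τ0 ∧ ∃ d0 : ℕ, ∀ d : ℕ,
      d0 ≤ d → ∀ [NeZero d], TS.BA θ c0 d →
      ∀ (X : Finset (DirichletCharacter ℂ d)) (Q : ℝ) (β : (ZMod d)ˣ → ℝ) (b : DirichletCharacter ℂ d → ℝ), Ker X τ0 Q β b →
      (∀ χ, χ ∉ X → ‖Pa (PW d α (2 * α)) χ‖ ≤ τ0) → ∀ ψ : (ZMod d)ˣ →* ℤˣ, ψ ≠ 1 →
      ∑ p ∈ (PW d α uE).filter (fun p => ψ (ucl d p) = 1), 1 / (p : ℝ) ≤ σ0 →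
      TS.mu (symmDiff {x | κ < sm β (EW d α i aT (aT + hT)) x} {x | ψ x = (-1) ^ i}) ≤ ε0 →
        TS.mu {z : (ZMod d)ˣ | ψ z = (-1) ^ (k + i + 1) ∧ ∀ n : ℕ, (n : ℝ) ≤ (d : ℝ) ^ E → Rough ⌊(d : ℝ) ^ c⌋₊ n →
          ArithmeticFunction.cardFactors n = k + 2 + i → (n : ZMod d) ≠ (z : ZMod d)} ≤ k1 := by
  classical
  -- the parameters
  obtain ⟨sl, hsl⟩ : ∃ sl : ℝ, sl = (E - (1 + hT + 2 * α * k)) / 2 := ⟨_, rfl⟩
  have hsl0 : 0 < sl := by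
    rw [hsl]
    linarith
  obtain ⟨h, hh⟩ : ∃ h : ℝ, h = min (aT + uE - 1) sl := ⟨_, rfl⟩
  have hh0 : 0 < h := by
    rw [hh]
    exact lt_min (by linarith) hsl0
  have hh1 : h ≤ aT + uE - 1 := hh ▸ min_le_left _ _
  have hh2 : h ≤ sl := hh ▸ min_le_right _ _
  obtain ⟨κs, hκs⟩ : ∃ κs : ℝ, κs = min (1 / 100) ((3 / 4 - aT - α) / 3) := ⟨_, rfl⟩
  have hκs0 : 0 < κs := by
    rw [hκs]
    exact lt_min (by norm_num) (by linarith)
  have hκs1 : κs ≤ 1 / 100 := hκs ▸ min_le_left _ _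
  have hκs2 : 3 * κs ≤ 3 / 4 - aT - α := by
    have : κs ≤ (3 / 4 - aT - α) / 3 := hκs ▸ min_le_right _ _
    linarith
  obtain ⟨c3, hc3, C2, hC2, dA, hA⟩ := large_few (θ - 1 / 4) c0 α aT (aT + hT) (by linarith) hc0 hα (by linarith) (by linarith)
  obtain ⟨ev, hev, dB, hB⟩ := few_pow α c3 hα hα1 hc3
  obtain ⟨cs, hcs, hsp⟩ := split_short κs hκs0 hκs1
  obtain ⟨c, hcd⟩ : ∃ c : ℝ, c = min cs (min α (ev / 8)) := ⟨_, rfl⟩
  have hcp : 0 < c := by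
    rw [hcd]
    exact lt_min hcs (lt_min hα (by positivity))
  have hc1 : c ≤ cs := hcd ▸ min_le_left _ _
  have hc2 : c ≤ α := hcd ▸ (min_le_right _ _).trans (min_le_left _ _)
  have hc4 : 8 * c ≤ ev := by
    have : c ≤ ev / 8 := hcd ▸ (min_le_right _ _).trans (min_le_right _ _)
    linarith
  obtain ⟨dC, hC⟩ := hsp c hcp hc1
  obtain ⟨w0, hw0, dD, hDm⟩ := mass_window h α 1 hh0 hα (by linarith)
  obtain ⟨R, hR, dE, hEs⟩ := sup_three c (1 + sl + h + hT) hcp (by linarith)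
  obtain ⟨dF, hF⟩ := WtT α hα
  obtain ⟨dG, hG⟩ := ev_pow sl hsl0 2
  obtain ⟨ω, hω⟩ : ∃ ω : ℝ, ω = min (1 / 20) w0 := ⟨_, rfl⟩
  have hω0 : 0 < ω := by
    rw [hω]
    exact lt_min (by norm_num) hw0
  have hω1 : ω ≤ 1 / 20 := hω ▸ min_le_left _ _
  have hω2 : ω ≤ w0 := hω ▸ min_le_right _ _
  refine ⟨ω / (4 * (k + 1)), c, by positivity, hcp, fun k1 hk1 => ⟨k1 / 16, by positivity, fun κ hκ => ?_⟩⟩
  obtain ⟨τ0, hτ⟩ : ∃ τ0 : ℝ, τ0 = min 1 (k1 * κ ^ 2 / (32 * C2)) := ⟨_, rfl⟩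
  have hτ0 : 0 < τ0 := by
    rw [hτ]
    exact lt_min one_pos (by positivity)
  have hτ1 : τ0 ≤ 1 := hτ ▸ min_le_left _ _
  have hτ2 : 32 * C2 * τ0 ≤ k1 * κ ^ 2 := by
    have h1 : τ0 ≤ k1 * κ ^ 2 / (32 * C2) := hτ ▸ min_le_right _ _
    rw [le_div_iff₀ (by positivity)] at h1
    linarith
  obtain ⟨dH, hH⟩ := final_small ev c R (aT + hT) w0 (k1 * κ ^ 2 / 16) hev hc4 hR (by linarith) hw0 (by positivity)
  refine ⟨τ0, hτ0, max 2 (max dA (max dB (max dC (max dD (max dE (max dF (max dG dH))))))),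
    fun d hd _ hBA X Q β b hK hX ψ hψ hσ hε => ?_⟩
  have g0 : 2 ≤ d := (le_max_left _ _).trans hd
  have gA : dA ≤ d := (le_max_left _ _).trans ((le_max_right _ _).trans hd)
  have gB' := (le_max_right _ _).trans ((le_max_right _ _).trans hd)
  have gB : dB ≤ d := (le_max_left _ _).trans gB'
  have gC' := (le_max_right _ _).trans gB'
  have gC : dC ≤ d := (le_max_left _ _).trans gC'
  have gD' := (le_max_right _ _).trans gC'
  have gD : dD ≤ d := (le_max_left _ _).trans gD'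
  have gE' := (le_max_right _ _).trans gD'
  have gE : dE ≤ d := (le_max_left _ _).trans gE'
  have gF' := (le_max_right _ _).trans gE'
  have gF : dF ≤ d := (le_max_left _ _).trans gF'
  have gG' := (le_max_right _ _).trans gF'
  have gG : dG ≤ d := (le_max_left _ _).trans gG'
  have gH : dH ≤ d := (le_max_right _ _).trans gG'
  have hd1 : (1 : ℝ) < d := by exact_mod_cast g0
  have hd0 : (0 : ℝ) < d := by linarith
  have hBur : BM.BurP (θ - 1 / 4) c0 d := by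
    intro χ hχ N hN
    rw [show 1 / 4 + (θ - 1 / 4) = θ by ring] at hN
    exact hBA χ hχ N hN
  obtain ⟨D, hD1, hDc⟩ := hC d gC ψ hψ
  have hD0 : (0 : ℝ) < D := by exact_mod_cast hD1
  have hq0 : 0 < (d : ℝ) ^ (-(4 * c)) := Real.rpow_pos_of_pos hd0 _
  have hTc : 0 < (PD d ⌊(d : ℝ) ^ c⌋₊ ⌊(d : ℝ) ^ (1 / 4 + 3 * κs)⌋₊ (chi ψ) D).card := by
    have h1 : (0 : ℝ) < ((PD d ⌊(d : ℝ) ^ c⌋₊ ⌊(d : ℝ) ^ (1 / 4 + 3 * κs)⌋₊ (chi ψ) D).card : ℝ) :=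
      lt_trans (by positivity) hDc
    exact_mod_cast h1
  obtain ⟨c', hc'1, hc'2, hc'3, hset⟩ := sets (i := i) (h := h) (hT := hT) g0 hc2 hκs2 (hG d gG) ψ hD1 hTc
  obtain ⟨T, hTd⟩ : ∃ T : Finset ℕ, T = PD d ⌊(d : ℝ) ^ c⌋₊ ⌊(d : ℝ) ^ (1 / 4 + 3 * κs)⌋₊ (chi ψ) D := ⟨_, rfl⟩
  rw [← hTd] at hset hDc hTc
  have hTm : ∀ t ∈ T, t.Prime ∧ ⌊(d : ℝ) ^ c⌋₊ < t ∧ t ≤ 2 * D ∧ t.Coprime d ∧ ψ (ucl d t) = 1 := by
    intro t ht
    rw [hTd] at ht
    unfold PD at ht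
    obtain ⟨t1, t2, t3, t4, t5⟩ := Finset.mem_filter.1 ht
    obtain ⟨t8, t9⟩ := chi_one_ucl ψ t5
    exact ⟨t2, t3, (Finset.mem_Ioc.1 t1).2, t8, t9⟩
  have hWT : (d : ℝ) ^ (-(4 * c)) / 2 ≤ Wt T :=
    Wt_dyadic (fun n hn => ⟨(hTm n hn).1.one_le, (hTm n hn).2.2.1⟩) hD1 hDc
  have hWT0 : 0 < Wt T := lt_of_lt_of_le (by positivity) hWT
  have hWP : 1 / 20 ≤ Wt (PW d α (2 * α)) := hF d gF
  have hWP0 : 0 < Wt (PW d α (2 * α)) := by linarith
  have hWP' : w0 ≤ Wt (PW d c' (c' + h)) := hDm d gD c' hc'1 (by linarith)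
  have hWP'0 : 0 < Wt (PW d c' (c' + h)) := by linarith
  have hWW : Wt (EW d α i aT (aT + hT)) ≤ 1 + (aT + hT) * Real.log d := by
    have h1 : ∀ n ∈ EW d α i aT (aT + hT), 1 ≤ n ∧ n ≤ ⌊(d : ℝ) ^ (aT + hT)⌋₊ := by
      intro n hn
      obtain ⟨⟨h1, h2⟩, -⟩ := mem_EW.1 hn
      exact ⟨by omega, h2⟩
    refine (Wt_le_log _ _ h1).trans ?_
    have h2 : 1 ≤ ⌊(d : ℝ) ^ (aT + hT)⌋₊ := by
      refine Nat.le_floor ?_
      rw [Nat.cast_one]
      exact Real.one_le_rpow hd1.le (by linarith)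
    have h3 : Real.log (⌊(d : ℝ) ^ (aT + hT)⌋₊ : ℝ) ≤ Real.log ((d : ℝ) ^ (aT + hT)) :=
      Real.log_le_log (by exact_mod_cast h2) (Nat.floor_le (Real.rpow_nonneg hd0.le _))
    rw [Real.log_rpow hd0] at h3
    linarith
  have hWW0 : 0 ≤ Wt (EW d α i aT (aT + hT)) := Wt_nonneg' _
  have hsup : ∀ x : (ZMod d)ˣ, mus [T, PW d c' (c' + h), EW d α i aT (aT + hT)] (dl d) x ≤ R * Real.log d :=
    hEs d gE T _ _ hset
  have hLS : ∀ Ξ : Finset (DirichletCharacter ℂ d), (∀ χ ∈ Ξ, (d : ℝ) ^ (-ev) ≤ ‖Pa (PW d α (2 * α)) χ‖) →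
      ∑ χ ∈ Ξ, ‖DA (EW d α i aT (aT + hT)) χ‖ ^ 2 ≤ C2 := by
    intro Ξ hΞ
    refine hA d gA hBur _ (fun n hn => ?_) Ξ (hB d gB Ξ hΞ)
    obtain ⟨⟨h1, h2⟩, h3, h4, -⟩ := mem_EW.1 hn
    exact ⟨h3, h4, (Nat.floor_lt (Real.rpow_nonneg hd0.le _)).1 h1, (Nat.le_floor_iff (Real.rpow_nonneg hd0.le _)).1 h2⟩
  have hsq := sq_diff (d := d) hK (v := (d : ℝ) ^ (-ev)) (τ := τ0) (R := R * Real.log d) (C2 := C2) (P := PW d α (2 * α)) (T := T)
    (P' := PW d c' (c' + h)) (W := EW d α i aT (aT + hT)) hk (fun p hp => PW_coprime hp) hWP0 hX hsup hLS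
  have hPs : PW d α (2 * α) ⊆ PW d α uE := PW_mono (by omega) le_rfl (by linarith)
  have hPs' : PW d c' (c' + h) ⊆ PW d α uE := PW_mono (by omega) hc'1 (by linarith)
  have hst := struct (d := d) ψ ((-1) ^ i) k (PW d α (2 * α)) T (PW d c' (c' + h)) (EW d α i aT (aT + hT)) hK.nonneg
    (κ := κ) (σ := ω / (4 * (k + 1))) (ω := ω) (ε := k1 / 16) hω0 (by linarith) (by linarith) hWT0 (by positivity)
    (le_of_eq (div_mul_cancel₀ _ (by positivity))) (qs_le ψ hPs hσ) (qs_le ψ hPs' hσ) (fun t ht => (hTm t ht).2.2.2.2) hκ hε hsq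
  have hfin : {z : (ZMod d)ˣ | ψ z = (-1) ^ (k + i + 1) ∧ ∀ n : ℕ, (n : ℝ) ≤ (d : ℝ) ^ E → Rough ⌊(d : ℝ) ^ c⌋₊ n →
      ArithmeticFunction.cardFactors n = k + 2 + i → (n : ZMod d) ≠ (z : ZMod d)} ⊆
      {x | ψ x = (-1) ^ i * (-1) ^ (k + 1) ∧ mus (List.replicate k (PW d α (2 * α)) ++ [T, PW d c' (c' + h), EW d α i aT (aT + hT)])
        (dl d) x = 0} := by
    rintro z ⟨hz1, hz2⟩
    refine ⟨?_, ?_⟩
    · rw [hz1, ← pow_add]
      congr 1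
      ring
    · by_contra hz3
      obtain ⟨ns, n1, n2, n3⟩ := mus_rep (d := d) _ (by
        intro A hA n hn
        rw [List.mem_append] at hA
        rcases hA with hA | hA
        · rw [List.eq_of_mem_replicate hA] at hn
          exact PW_coprime hn
        · rw [List.mem_cons, List.mem_cons, List.mem_cons] at hA
          rcases hA with hA | hA | hA | hA
          · rw [hA] at hn
            exact (hTm n hn).2.2.2.1
          · rw [hA] at hn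
            exact PW_coprime hn
          · rw [hA] at hn
            exact EW_coprime hn
          · exact absurd hA List.not_mem_nil) z hz3
      obtain ⟨LL, hLL⟩ : ∃ LL : List (Finset ℕ × ℕ × ℝ), LL = List.replicate k (PW d α (2 * α), 1, (d : ℝ) ^ (2 * α)) ++
          [(T, 1, 2 * (D : ℝ)), (PW d c' (c' + h), 1, (d : ℝ) ^ (c' + h)), (EW d α i aT (aT + hT), i, (d : ℝ) ^ (aT + hT))] := ⟨_, rfl⟩
      have hLf : LL.map Prod.fst = List.replicate k (PW d α (2 * α)) ++ [T, PW d c' (c' + h), EW d α i aT (aT + hT)] := by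
        rw [hLL, List.map_append, List.map_replicate]
        rfl
      have hLmem : ∀ A ∈ LL, A = (PW d α (2 * α), 1, (d : ℝ) ^ (2 * α)) ∨ A = (T, 1, 2 * (D : ℝ)) ∨
          A = (PW d c' (c' + h), 1, (d : ℝ) ^ (c' + h)) ∨ A = (EW d α i aT (aT + hT), i, (d : ℝ) ^ (aT + hT)) := by
        intro A hA
        rw [hLL, List.mem_append] at hA
        rcases hA with hA | hA
        · exact Or.inl (List.eq_of_mem_replicate hA)
        · rw [List.mem_cons, List.mem_cons, List.mem_cons] at hA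
          rcases hA with hA | hA | hA | hA
          · exact Or.inr (Or.inl hA)
          · exact Or.inr (Or.inr (Or.inl hA))
          · exact Or.inr (Or.inr (Or.inr hA))
          · exact absurd hA List.not_mem_nil
      have hfl : ∀ {x y : ℝ}, x ≤ y → ⌊(d : ℝ) ^ x⌋₊ ≤ ⌊(d : ℝ) ^ y⌋₊ := fun hxy =>
        Nat.floor_le_floor (Real.rpow_le_rpow_of_exponent_le hd1.le hxy)
      rw [← hLf] at n1
      obtain ⟨r1, r2, r3⟩ := rep_prod (z := ⌊(d : ℝ) ^ c⌋₊) LL (by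
        intro A hA
        rcases hLmem A hA with hA | hA | hA | hA <;> rw [hA] <;> positivity) (by
        intro A hA n hn
        rcases hLmem A hA with hA | hA | hA | hA
        · rw [hA] at hn ⊢
          obtain ⟨p1, p2, p3, p4⟩ := mem_PW.1 hn
          exact ⟨rough_prime p1 ((hfl hc2).trans_lt p2), ArithmeticFunction.cardFactors_apply_prime p1,
            (Nat.le_floor_iff (Real.rpow_nonneg hd0.le _)).1 p3⟩
        · rw [hA] at hn ⊢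
          obtain ⟨p1, p2, p3, p4, p5⟩ := hTm n hn
          have p6 : (n : ℝ) ≤ 2 * (D : ℝ) := by exact_mod_cast p3
          exact ⟨rough_prime p1 p2, ArithmeticFunction.cardFactors_apply_prime p1, p6⟩
        · rw [hA] at hn ⊢
          obtain ⟨p1, p2, p3, p4⟩ := mem_PW.1 hn
          exact ⟨rough_prime p1 ((hfl (by linarith)).trans_lt p2), ArithmeticFunction.cardFactors_apply_prime p1,
            (Nat.le_floor_iff (Real.rpow_nonneg hd0.le _)).1 p3⟩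
        · rw [hA] at hn ⊢
          obtain ⟨⟨w1, w2⟩, w3, w4, w5⟩ := mem_EW.1 hn
          exact ⟨rough_le (hfl hc2) w3, w5, (Nat.le_floor_iff (Real.rpow_nonneg hd0.le _)).1 w2⟩) ns n1
      refine hz2 ns.prod ?_ r1 ?_ ?_
      · refine r3.trans ?_
        rw [hLL, List.map_append, List.map_replicate, List.prod_append, List.prod_replicate, List.map_cons, List.map_cons,
          List.map_cons, List.map_nil, List.prod_cons, List.prod_cons, List.prod_cons, List.prod_nil, mul_one]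
        calc ((d : ℝ) ^ (2 * α)) ^ k * (2 * (D : ℝ) * ((d : ℝ) ^ (c' + h) * (d : ℝ) ^ (aT + hT))) =
              (d : ℝ) ^ (2 * α * k) * ((2 * (D : ℝ) * (d : ℝ) ^ (c' + h)) * (d : ℝ) ^ (aT + hT)) := by
              rw [Real.rpow_mul_natCast hd0.le]
              ring
          _ ≤ (d : ℝ) ^ (2 * α * k) * ((d : ℝ) ^ (1 - aT + sl + h) * (d : ℝ) ^ (aT + hT)) :=
              mul_le_mul_of_nonneg_left (mul_le_mul_of_nonneg_right hc'3 (Real.rpow_nonneg hd0.le _)) (Real.rpow_nonneg hd0.le _)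
          _ = (d : ℝ) ^ (2 * α * k + (1 - aT + sl + h + (aT + hT))) := by
              rw [← Real.rpow_add hd0, ← Real.rpow_add hd0]
          _ ≤ (d : ℝ) ^ E := by
              refine Real.rpow_le_rpow_of_exponent_le hd1.le ?_
              have : sl + sl = E - (1 + hT + 2 * α * k) := by
                rw [hsl]
                ring
              linarith
      · rw [r2, hLL, List.map_append, List.map_replicate, List.sum_append, List.sum_replicate, List.map_cons, List.map_cons,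
          List.map_cons, List.map_nil, List.sum_cons, List.sum_cons, List.sum_cons, List.sum_nil, smul_eq_mul]
        ring
      · rw [← n3, ucl_val n2]
  refine (TS.mu_mono hfin).trans (hst.trans ?_)
  -- the final inequality
  have hH' := hH d gH
  obtain ⟨wp, hwp⟩ : ∃ wp : ℝ, wp = Wt (PW d α (2 * α)) := ⟨_, rfl⟩
  obtain ⟨wq, hwq⟩ : ∃ wq : ℝ, wq = Wt (PW d c' (c' + h)) := ⟨_, rfl⟩
  obtain ⟨wt, hwt⟩ : ∃ wt : ℝ, wt = Wt T := ⟨_, rfl⟩
  obtain ⟨ww, hww⟩ : ∃ ww : ℝ, ww = Wt (EW d α i aT (aT + hT)) := ⟨_, rfl⟩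
  obtain ⟨v2, hv2⟩ : ∃ v2 : ℝ, v2 = ((d : ℝ) ^ (-ev)) ^ 2 := ⟨_, rfl⟩
  obtain ⟨q, hq⟩ : ∃ q : ℝ, q = (d : ℝ) ^ (-(4 * c)) := ⟨_, rfl⟩
  rw [← hwp] at hWP0
  rw [← hwq] at hWP' hWP'0
  rw [← hwt, ← hq] at hWT
  rw [← hwt] at hWT0
  rw [← hww] at hWW hWW0
  rw [← hq] at hq0
  rw [← hv2, ← hq] at hH'
  rw [← hwp, ← hwq, ← hwt, ← hww, ← hv2]
  have hl0 : 0 ≤ Real.log d := Real.log_nonneg hd1.le
  have hv20 : 0 ≤ v2 := by
    rw [hv2]
    positivity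
  have hX1 : v2 * (R * Real.log d * ww) ≤ k1 * κ ^ 2 / 16 * (wt * wq) := by
    have h1 : v2 * (R * Real.log d * ww) ≤ v2 * (R * Real.log d * (1 + (aT + hT) * Real.log d)) :=
      mul_le_mul_of_nonneg_left (mul_le_mul_of_nonneg_left hWW (by positivity)) hv20
    have h2 : q / 2 * w0 ≤ wt * wq := mul_le_mul hWT hWP' hw0.le hWT0.le
    exact h1.trans (hH'.trans (mul_le_mul_of_nonneg_left h2 (by positivity)))
  have hm : 0 < κ * (wp ^ k * (wt * wq)) := by positivity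
  have hX2 : 4 * (wp ^ (2 * k) * (v2 * (R * Real.log d * (wt * (wq * ww))) + (wt * wq) ^ 2 * ((τ0 ^ 2 + τ0 ^ 2) * C2))) ≤
      k1 / 2 * (κ * (wp ^ k * (wt * wq))) ^ 2 := by
    have h1 : v2 * (R * Real.log d * (wt * (wq * ww))) ≤ k1 * κ ^ 2 / 16 * (wt * wq) ^ 2 := by
      have h2 := mul_le_mul_of_nonneg_right hX1 (show 0 ≤ wt * wq by positivity)
      calc v2 * (R * Real.log d * (wt * (wq * ww))) = v2 * (R * Real.log d * ww) * (wt * wq) := by ring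
        _ ≤ k1 * κ ^ 2 / 16 * (wt * wq) * (wt * wq) := h2
        _ = _ := by ring
    have h3 : (τ0 ^ 2 + τ0 ^ 2) * C2 ≤ k1 * κ ^ 2 / 16 := by
      have h4 : τ0 ^ 2 ≤ τ0 := by
        rw [sq]
        exact mul_le_of_le_one_left hτ0.le hτ1
      have h7 : τ0 ^ 2 * C2 ≤ τ0 * C2 := mul_le_mul_of_nonneg_right h4 hC2.le
      linarith
    have h5 : (wt * wq) ^ 2 * ((τ0 ^ 2 + τ0 ^ 2) * C2) ≤ (wt * wq) ^ 2 * (k1 * κ ^ 2 / 16) :=
      mul_le_mul_of_nonneg_left h3 (sq_nonneg _)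
    have h6 : wp ^ (2 * k) * (v2 * (R * Real.log d * (wt * (wq * ww))) + (wt * wq) ^ 2 * ((τ0 ^ 2 + τ0 ^ 2) * C2)) ≤
        wp ^ (2 * k) * (k1 * κ ^ 2 / 8 * (wt * wq) ^ 2) := by
      refine mul_le_mul_of_nonneg_left ?_ (by positivity)
      linarith
    calc 4 * (wp ^ (2 * k) * (v2 * (R * Real.log d * (wt * (wq * ww))) + (wt * wq) ^ 2 * ((τ0 ^ 2 + τ0 ^ 2) * C2))) ≤
          4 * (wp ^ (2 * k) * (k1 * κ ^ 2 / 8 * (wt * wq) ^ 2)) := by linarith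
      _ = k1 / 2 * (κ * (wp ^ k * (wt * wq))) ^ 2 := by ring
  have hX3 : 4 * (wp ^ (2 * k) * (v2 * (R * Real.log d * (wt * (wq * ww))) + (wt * wq) ^ 2 * ((τ0 ^ 2 + τ0 ^ 2) * C2))) /
      (κ * (wp ^ k * (wt * wq))) ^ 2 ≤ k1 / 2 := by
    rw [div_le_iff₀ (by positivity)]
    exact hX2
  linarith

end Pool.Agent.Lib.MP_42948a_nt.TR
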