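import Pool.Agent.Lib.MP_42948a_nt.TR.S9b
import Pool.Agent.Lib.MP_42948a_nt.PS.B6c

/-!
# The sets of the wrong parity
-/

set_option linter.unusedSectionVars false

namespace Pool.Agent.Lib.MP_42948a_nt.TR

open Finset Pool.Agent.Lib.MP_42948a_nt.OA Pool.Agent.Lib.MP_42948a_nt.AC Pool.Agent.Lib.MP_42948a_nt.TQ
  Pool.Agent.Lib.MP_42948a_nt.PS Pool.Agent.Lib.MP_42948a_nt.TF

theorem few_pow (α c3 : ℝ) (hα : 0 < α) (hα1 : α ≤ 1 / 4) (hc3 : 0 < c3) : ∃ ev : ℝ, 0 < ev ∧ ∃ d0 : ℕ, ∀ d : ℕ, d0 ≤ d →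
    ∀ [NeZero d], ∀ Ξ : Finset (DirichletCharacter ℂ d), (∀ χ ∈ Ξ, (d : ℝ) ^ (-ev) ≤ ‖Pa (PW d α (2 * α)) χ‖) →
      (Ξ.card : ℝ) ≤ (d : ℝ) ^ c3 := by
  obtain ⟨k, hkdef⟩ : ∃ k : ℕ, k = ⌈(1 / 2 + α) / α⌉₊ := ⟨_, rfl⟩
  have hk : 1 / 2 + α ≤ (k : ℝ) * α := by
    have h1 : (1 / 2 + α) / α ≤ (k : ℝ) := by
      rw [hkdef]
      exact Nat.le_ceil _
    rwa [div_le_iff₀ hα] at h1
  have hk0 : 0 < (k : ℝ) := by
    by_contra h
    push Not at h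
    nlinarith
  obtain ⟨C, hC, d1, h1⟩ := few_large α hα (by linarith) k hk
  obtain ⟨ev, hev⟩ : ∃ ev : ℝ, ev = min c3 (α / 8) / (4 * k) := ⟨_, rfl⟩
  have hmin : 0 < min c3 (α / 8) := lt_min hc3 (by positivity)
  have hev0 : 0 < ev := by
    rw [hev]
    positivity
  have e1 : 2 * k * ev = min c3 (α / 8) / 2 := by
    rw [hev]
    field_simp
    norm_num
  have e2 : 2 * k * ev ≤ c3 / 2 := by
    have := min_le_left c3 (α / 8)
    linarith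
  have e3 : 2 * k * ev ≤ α / 16 := by
    have := min_le_right c3 (α / 8)
    linarith
  obtain ⟨d2, hd2⟩ := ev_pow (α / 16) (by positivity) (2 * C + 1)
  obtain ⟨d3, hd3⟩ := ev_pow (c3 / 2) (by positivity) C
  refine ⟨ev, hev0, max 1 (max d1 (max d2 d3)), fun d hd _ Ξ hΞ => ?_⟩
  have g0 : 1 ≤ d := (le_max_left _ _).trans hd
  have g1 : d1 ≤ d := (le_max_left _ _).trans ((le_max_right _ _).trans hd)
  have g2 : d2 ≤ d := (le_max_left _ _).trans ((le_max_right _ _).trans ((le_max_right _ _).trans hd))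
  have g3 : d3 ≤ d := (le_max_right _ _).trans ((le_max_right _ _).trans ((le_max_right _ _).trans hd))
  have hd1 : (1 : ℝ) ≤ d := by exact_mod_cast g0
  have hd0 : (0 : ℝ) < d := by linarith
  have hpow : ((d : ℝ) ^ (-ev)) ^ (2 * k) = (d : ℝ) ^ (-(2 * k * ev)) := by
    rw [← Real.rpow_natCast, ← Real.rpow_mul hd0.le]
    congr 1
    push_cast
    ring
  have h4 : 2 * C < ((d : ℝ) ^ (-ev)) ^ (2 * k) * (d : ℝ) ^ (α / 8) := by
    rw [hpow, ← Real.rpow_add hd0]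
    have h5 : (d : ℝ) ^ (α / 16) ≤ (d : ℝ) ^ (-(2 * k * ev) + α / 8) :=
      Real.rpow_le_rpow_of_exponent_le hd1 (by linarith)
    linarith [hd2 d g2]
  have h5 := h1 d g1 ((d : ℝ) ^ (-ev)) (Real.rpow_pos_of_pos hd0 _) h4 Ξ hΞ
  rw [hpow] at h5
  have h6 : (Ξ.card : ℝ) ≤ C * (d : ℝ) ^ (2 * k * ev) := by
    have h7 : (d : ℝ) ^ (-(2 * k * ev)) * (d : ℝ) ^ (2 * k * ev) = 1 := by
      rw [← Real.rpow_add hd0, neg_add_cancel, Real.rpow_zero]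
    calc (Ξ.card : ℝ) = (Ξ.card * (d : ℝ) ^ (-(2 * k * ev))) * (d : ℝ) ^ (2 * k * ev) := by rw [mul_assoc, h7, mul_one]
      _ ≤ C * (d : ℝ) ^ (2 * k * ev) := mul_le_mul_of_nonneg_right h5 (Real.rpow_nonneg hd0.le _)
  refine h6.trans ?_
  calc C * (d : ℝ) ^ (2 * k * ev) ≤ (d : ℝ) ^ (c3 / 2) * (d : ℝ) ^ (c3 / 2) :=
        mul_le_mul (hd3 d g3) (Real.rpow_le_rpow_of_exponent_le hd1 e2) (Real.rpow_nonneg hd0.le _) (Real.rpow_nonneg hd0.le _)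
    _ = (d : ℝ) ^ c3 := by
      rw [← Real.rpow_add hd0]
      congr 1
      ring

theorem final_small (ev c R b w0 ε : ℝ) (hev : 0 < ev) (hcev : 8 * c ≤ ev) (hR : 0 < R) (hb : 0 ≤ b) (hw0 : 0 < w0)
    (hε : 0 < ε) : ∃ d0 : ℕ, ∀ d : ℕ, d0 ≤ d →
      ((d : ℝ) ^ (-ev)) ^ 2 * (R * Real.log d * (1 + b * Real.log d)) ≤ ε * ((d : ℝ) ^ (-(4 * c)) / 2 * w0) := by
  obtain ⟨M, hM⟩ : ∃ M : ℝ, M = 1 + 2 * R * (1 + b) / (ε * w0) := ⟨_, rfl⟩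
  have hM0 : 0 < M := by
    rw [hM]
    positivity
  have hM1 : 1 ≤ M := by
    rw [hM]
    have : 0 ≤ 2 * R * (1 + b) / (ε * w0) := by positivity
    linarith
  obtain ⟨d1, h1⟩ := Filter.eventually_atTop.1 (log_le_pow (ev / 4) (by positivity) M hM0)
  refine ⟨max 1 d1, fun d hd => ?_⟩
  have g0 : 1 ≤ d := (le_max_left _ _).trans hd
  have hd1 : (1 : ℝ) ≤ d := by exact_mod_cast g0
  have hd0 : (0 : ℝ) < d := by linarith
  have hl : 0 ≤ Real.log d := Real.log_nonneg hd1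
  have h2 := h1 d ((le_max_right _ _).trans hd)
  have h3 : (1 + Real.log d) * (M * (1 + Real.log d)) ≤ (d : ℝ) ^ (ev / 2) := by
    have h4 : 1 + Real.log d ≤ (d : ℝ) ^ (ev / 4) := by
      refine le_trans ?_ h2
      nlinarith
    calc (1 + Real.log d) * (M * (1 + Real.log d)) ≤ (d : ℝ) ^ (ev / 4) * (d : ℝ) ^ (ev / 4) :=
          mul_le_mul h4 h2 (by positivity) (Real.rpow_nonneg hd0.le _)
      _ = (d : ℝ) ^ (ev / 2) := by
        rw [← Real.rpow_add hd0]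
        congr 1
        ring
  have h5 : R * Real.log d * (1 + b * Real.log d) ≤ ε * w0 / 2 * (d : ℝ) ^ (ev / 2) := by
    have h6 : R * Real.log d * (1 + b * Real.log d) ≤ (R * (1 + b)) * (1 + Real.log d) ^ 2 := by
      have h7 : Real.log d ≤ 1 + Real.log d := by linarith
      have h8 : 1 + b * Real.log d ≤ (1 + b) * (1 + Real.log d) := by nlinarith
      calc R * Real.log d * (1 + b * Real.log d) ≤ R * (1 + Real.log d) * ((1 + b) * (1 + Real.log d)) :=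
            mul_le_mul (mul_le_mul_of_nonneg_left h7 hR.le) h8 (by positivity) (by positivity)
        _ = (R * (1 + b)) * (1 + Real.log d) ^ 2 := by ring
    have h9 : R * (1 + b) ≤ ε * w0 / 2 * M := by
      rw [hM]
      have h10 : ε * w0 / 2 * (1 + 2 * R * (1 + b) / (ε * w0)) = ε * w0 / 2 + R * (1 + b) := by
        field_simp
      rw [h10]
      have : 0 < ε * w0 / 2 := by positivity
      linarith
    calc R * Real.log d * (1 + b * Real.log d) ≤ (R * (1 + b)) * (1 + Real.log d) ^ 2 := h6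
      _ ≤ (ε * w0 / 2 * M) * (1 + Real.log d) ^ 2 := mul_le_mul_of_nonneg_right h9 (sq_nonneg _)
      _ = ε * w0 / 2 * ((1 + Real.log d) * (M * (1 + Real.log d))) := by ring
      _ ≤ ε * w0 / 2 * (d : ℝ) ^ (ev / 2) := mul_le_mul_of_nonneg_left h3 (by positivity)
  have h6 : ((d : ℝ) ^ (-ev)) ^ 2 * (d : ℝ) ^ (ev / 2) ≤ (d : ℝ) ^ (-(4 * c)) := by
    rw [← Real.rpow_natCast, ← Real.rpow_mul hd0.le, ← Real.rpow_add hd0]
    refine Real.rpow_le_rpow_of_exponent_le hd1 ?_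
    push_cast
    linarith
  calc ((d : ℝ) ^ (-ev)) ^ 2 * (R * Real.log d * (1 + b * Real.log d)) ≤
        ((d : ℝ) ^ (-ev)) ^ 2 * (ε * w0 / 2 * (d : ℝ) ^ (ev / 2)) := mul_le_mul_of_nonneg_left h5 (sq_nonneg _)
    _ = ε * w0 / 2 * (((d : ℝ) ^ (-ev)) ^ 2 * (d : ℝ) ^ (ev / 2)) := by ring
    _ ≤ ε * w0 / 2 * (d : ℝ) ^ (-(4 * c)) := mul_le_mul_of_nonneg_left h6 (by positivity)
    _ = ε * ((d : ℝ) ^ (-(4 * c)) / 2 * w0) := by ring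

/-- the sets of primes of the wrong parity -/
theorem sets {d : ℕ} [NeZero d] (hd : 2 ≤ d) {c α aT hT h δ κs : ℝ} {i : ℕ} (hcα : c ≤ α) (hκs : 3 * κs ≤ 3 / 4 - aT - α)
    (hδ : 2 ≤ (d : ℝ) ^ δ) (ψ : (ZMod d)ˣ →* ℤˣ) {D : ℕ} (hD : 1 ≤ D)
    (hTc : 0 < (PD d ⌊(d : ℝ) ^ c⌋₊ ⌊(d : ℝ) ^ (1 / 4 + 3 * κs)⌋₊ (chi ψ) D).card) :
    ∃ c' : ℝ, α ≤ c' ∧ c' ≤ 1 - aT ∧ 2 * (D : ℝ) * (d : ℝ) ^ (c' + h) ≤ (d : ℝ) ^ (1 - aT + δ + h) ∧
      ∀ t ∈ PD d ⌊(d : ℝ) ^ c⌋₊ ⌊(d : ℝ) ^ (1 / 4 + 3 * κs)⌋₊ (chi ψ) D, ∀ p ∈ PW d c' (c' + h),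
        ∀ w ∈ EW d α i aT (aT + hT), Rough ⌊(d : ℝ) ^ c⌋₊ (t * p * w) ∧ (t * p * w).Coprime d ∧
          d < t * p * w ∧ ((t * p * w : ℕ) : ℝ) ≤ (d : ℝ) ^ (1 + δ + h + hT) := by
  classical
  have hd1 : (1 : ℝ) < d := by exact_mod_cast hd
  have hd0 : (0 : ℝ) < d := by linarith
  have hD0 : (0 : ℝ) < D := by exact_mod_cast hD
  obtain ⟨u, hu⟩ : ∃ u : ℝ, u = Real.logb d D := ⟨_, rfl⟩
  have hu1 : (d : ℝ) ^ u = D := by
    rw [hu]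
    exact Real.rpow_logb hd0 hd1.ne' hD0
  have hu0 : 0 ≤ u := by
    rw [hu]
    exact Real.logb_nonneg hd1 (by exact_mod_cast hD)
  have hu2 : u < 1 / 4 + 3 * κs := by
    obtain ⟨p, hp⟩ := Finset.card_pos.1 hTc
    unfold PD at hp
    obtain ⟨h1, h2, h3, h4, h5⟩ := Finset.mem_filter.1 hp
    have h6 : D < p := (Finset.mem_Ioc.1 h1).1
    have h7 : (D : ℝ) < (d : ℝ) ^ (1 / 4 + 3 * κs) := by
      have h8 : (p : ℝ) ≤ (d : ℝ) ^ (1 / 4 + 3 * κs) := (Nat.le_floor_iff (Real.rpow_nonneg hd0.le _)).1 h4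
      have h9 : (D : ℝ) < p := by exact_mod_cast h6
      linarith
    rw [← hu1] at h7
    exact (Real.rpow_lt_rpow_left_iff hd1).1 h7
  refine ⟨1 - u - aT, by linarith, by linarith, ?_, ?_⟩
  · rw [← hu1]
    calc 2 * (d : ℝ) ^ u * (d : ℝ) ^ (1 - u - aT + h) ≤ (d : ℝ) ^ δ * (d : ℝ) ^ u * (d : ℝ) ^ (1 - u - aT + h) :=
          mul_le_mul_of_nonneg_right (mul_le_mul_of_nonneg_right hδ (Real.rpow_nonneg hd0.le _)) (Real.rpow_nonneg hd0.le _)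
      _ = (d : ℝ) ^ (1 - aT + δ + h) := by
        rw [← Real.rpow_add hd0, ← Real.rpow_add hd0]
        congr 1
        ring
  · intro t ht p hp w hw
    unfold PD at ht
    obtain ⟨t1, t2, t3, t4, t5⟩ := Finset.mem_filter.1 ht
    obtain ⟨t6, t7⟩ := Finset.mem_Ioc.1 t1
    obtain ⟨t8, -⟩ := chi_one_ucl ψ t5
    obtain ⟨p1, p2, p3, p4⟩ := mem_PW.1 hp
    obtain ⟨⟨w1, w2⟩, w3, w4, w5⟩ := mem_EW.1 hw
    have hfl : ∀ {x y : ℝ}, x ≤ y → ⌊(d : ℝ) ^ x⌋₊ ≤ ⌊(d : ℝ) ^ y⌋₊ := fun hxy =>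
      Nat.floor_le_floor (Real.rpow_le_rpow_of_exponent_le hd1.le hxy)
    have r1 : Rough ⌊(d : ℝ) ^ c⌋₊ t := rough_prime t2 t3
    have r2 : Rough ⌊(d : ℝ) ^ c⌋₊ p := rough_prime p1 ((hfl (by linarith)).trans_lt p2)
    have r3 : Rough ⌊(d : ℝ) ^ c⌋₊ w := rough_le (hfl hcα) w3
    have q1 : (d : ℝ) ^ (1 - u - aT) < p := (Nat.floor_lt (Real.rpow_nonneg hd0.le _)).1 p2
    have q2 : (d : ℝ) ^ aT < w := (Nat.floor_lt (Real.rpow_nonneg hd0.le _)).1 w1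
    have q3 : (p : ℝ) ≤ (d : ℝ) ^ (1 - u - aT + h) := (Nat.le_floor_iff (Real.rpow_nonneg hd0.le _)).1 p3
    have q4 : (w : ℝ) ≤ (d : ℝ) ^ (aT + hT) := (Nat.le_floor_iff (Real.rpow_nonneg hd0.le _)).1 w2
    have q5 : (D : ℝ) < t := by exact_mod_cast t6
    have q6 : (t : ℝ) ≤ 2 * D := by exact_mod_cast t7
    have s1 : 0 < (d : ℝ) ^ (1 - u - aT) := Real.rpow_pos_of_pos hd0 _
    have s2 : 0 < (d : ℝ) ^ aT := Real.rpow_pos_of_pos hd0 _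
    refine ⟨(r1.mul r2).mul r3, Nat.Coprime.mul_left (Nat.Coprime.mul_left t8 (PW_coprime hp)) w4, ?_, ?_⟩
    · have h1 : (d : ℝ) < ((t * p * w : ℕ) : ℝ) := by
        push_cast
        have h2 : (d : ℝ) = D * (d : ℝ) ^ (1 - u - aT) * (d : ℝ) ^ aT := by
          rw [← hu1, ← Real.rpow_add hd0, ← Real.rpow_add hd0]
          have h3 : u + (1 - u - aT) + aT = 1 := by ring
          rw [h3, Real.rpow_one]
        conv_lhs => rw [h2]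
        have h3 : (D : ℝ) * (d : ℝ) ^ (1 - u - aT) < t * p :=
          mul_lt_mul q5 q1.le s1 (by linarith)
        exact mul_lt_mul h3 q2.le s2 (by positivity)
      exact_mod_cast h1
    · push_cast
      have h1 : (t : ℝ) * p * w ≤ (d : ℝ) ^ δ * (d : ℝ) ^ u * (d : ℝ) ^ (1 - u - aT + h) * (d : ℝ) ^ (aT + hT) := by
        have h2 : (t : ℝ) ≤ (d : ℝ) ^ δ * (d : ℝ) ^ u := by
          rw [hu1]
          refine q6.trans (mul_le_mul_of_nonneg_right hδ hD0.le)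
        exact mul_le_mul (mul_le_mul h2 q3 (Nat.cast_nonneg _) (by positivity)) q4 (Nat.cast_nonneg _) (by positivity)
      refine h1.trans (le_of_eq ?_)
      rw [← Real.rpow_add hd0, ← Real.rpow_add hd0, ← Real.rpow_add hd0]
      congr 1
      ring

end Pool.Agent.Lib.MP_42948a_nt.TR
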