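import Pool.Agent.Lib.MP_42948a_nt.TR.S1

/-!
# Split primes of length `d ^ (1/4 + ..)`: numerics
-/

namespace Pool.Agent.Lib.MP_42948a_nt.TR

open Finset Pool.Agent.Lib.MP_42948a_nt.OA Pool.Agent.Lib.MP_42948a_nt.AC Pool.Agent.Lib.MP_42948a_nt.TQ
  Pool.Agent.Lib.MP_42948a_nt.PS Pool.Agent.Lib.MP_42948a_nt.EX

private theorem S2_ev (c : ℝ) (hc : 0 < c) (C : ℝ) : ∀ᶠ d : ℕ in Filter.atTop, C ≤ (d : ℝ) ^ c :=
  ((tendsto_rpow_atTop hc).comp tendsto_natCast_atTop_atTop).eventually_ge_atTop C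

private theorem S2_log (c : ℝ) (hc : 0 < c) (C : ℝ) (hC : 0 < C) :
    ∀ᶠ d : ℕ in Filter.atTop, C * (1 + Real.log d) ≤ (d : ℝ) ^ c := by
  have e1 : ∀ᶠ x : ℝ in Filter.atTop, ‖Real.log x‖ ≤ 1 * ‖x ^ (c / 2)‖ :=
    (isLittleO_log_rpow_atTop (by positivity)).bound one_pos
  have ht := tendsto_natCast_atTop_atTop (R := ℝ)
  filter_upwards [ht.eventually e1, S2_ev (c / 2) (by positivity) (2 * C), S2_ev (c / 2) (by positivity) 1,
    Filter.eventually_ge_atTop 1] with d h1 h2 h3 h4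
  have hd0 : (0 : ℝ) < d := by exact_mod_cast h4
  have h5 : Real.log d ≤ (d : ℝ) ^ (c / 2) := by
    rw [one_mul, Real.norm_eq_abs, Real.norm_eq_abs, abs_of_nonneg (by positivity : 0 ≤ (d : ℝ) ^ (c / 2))] at h1
    exact (le_abs_self _).trans h1
  have h6 : (d : ℝ) ^ c = (d : ℝ) ^ (c / 2) * (d : ℝ) ^ (c / 2) := by
    rw [← Real.rpow_add hd0]
    congr 1
    ring
  rw [h6]
  calc C * (1 + Real.log d) ≤ C * ((d : ℝ) ^ (c / 2) + (d : ℝ) ^ (c / 2)) := by gcongr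
    _ = (2 * C) * (d : ℝ) ^ (c / 2) := by ring
    _ ≤ (d : ℝ) ^ (c / 2) * (d : ℝ) ^ (c / 2) := by gcongr

/-- Numerics: `W = d ^ u`, `X = ⌊W⌋`. -/
theorem S2_num (u s c : ℝ) (K T : ℕ) (hu : 1 / 4 ≤ u) (hu1 : u ≤ 1) (hs : 0 < s) (hc : 0 < c) (hc1 : c ≤ 1 / 64)
    (hcK : c * (3 * K + 4) ≤ s / 4) : ∃ d0 : ℕ, ∀ d : ℕ, d0 ≤ d → ∀ L : ℝ, (d : ℝ) ^ (-c) ≤ L →
    (d.divisors.card : ℝ) * √(⌊(d : ℝ) ^ u⌋₊ : ℝ) +
      T * ((d : ℝ) ^ (-(4 * c)) * (⌊(d : ℝ) ^ u⌋₊ : ℝ) * (Nat.log 2 ⌊(d : ℝ) ^ u⌋₊ + 1)) +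
      (⌊(d : ℝ) ^ c⌋₊ : ℝ) ^ (3 * K) * (d : ℝ) ^ (u - s / 2) <
      (⌊(d : ℝ) ^ u⌋₊ : ℝ) * L / (8 * (⌊(d : ℝ) ^ c⌋₊ : ℝ) ^ 2) := by
  obtain ⟨d1, hd1⟩ := BB_le (1 / 64) (by norm_num)
  have e5 : ∀ᶠ d : ℕ in Filter.atTop, d1 ≤ d ∧ (2 : ℝ) ≤ (d : ℝ) ^ u ∧ 64 ≤ (d : ℝ) ^ (1 / 32 : ℝ) ∧
      64 ≤ (d : ℝ) ^ c ∧ 256 * ((T : ℝ) + 1) * (1 + Real.log d) ≤ (d : ℝ) ^ (c / 2) ∧ 64 < (d : ℝ) ^ (c / 2) ∧ (2 : ℕ) ≤ d := by
    filter_upwards [Filter.eventually_ge_atTop d1, S2_ev u (by linarith) 2, S2_ev (1 / 32) (by norm_num) 64, S2_ev c hc 64,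
      S2_log (c / 2) (by positivity) (256 * ((T : ℝ) + 1)) (by positivity), S2_ev (c / 2) (by positivity) 65,
      Filter.eventually_ge_atTop 2] with d a1 a2 a3 a4 a5 a6 a7
    exact ⟨a1, a2, a3, a4, a5, by linarith, a7⟩
  obtain ⟨d0, hd0⟩ := Filter.eventually_atTop.mp e5
  refine ⟨d0, fun d hd L hL => ?_⟩
  obtain ⟨hdd1, hW2, h32, h64, hlog, h64', hd2⟩ := hd0 d hd
  have htau := (hd1 d hdd1).2
  have hxd : (2 : ℝ) ≤ (d : ℝ) := by exact_mod_cast hd2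
  set x : ℝ := (d : ℝ) with hx
  have hx0 : 0 < x := by linarith
  have hx1 : 1 ≤ x := by linarith
  have hlog0 : 0 ≤ Real.log x := Real.log_nonneg hx1
  set N : ℝ := (⌊x ^ u⌋₊ : ℝ) with hN
  set z : ℝ := (⌊x ^ c⌋₊ : ℝ) with hz
  have hN1 : N ≤ x ^ u := Nat.floor_le (by positivity)
  have hN2 : x ^ u / 2 ≤ N := by
    have h3 := Nat.lt_floor_add_one (x ^ u)
    linarith
  have hNpos : 0 < N := by linarith
  have hz1 : z ≤ x ^ c := Nat.floor_le (by positivity)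
  have hz2 : 1 ≤ z := by
    have h3 : (1 : ℕ) ≤ ⌊x ^ c⌋₊ := by
      refine Nat.le_floor ?_
      rw [Nat.cast_one]
      exact Real.one_le_rpow hx1 hc.le
    have h4 : ((1 : ℕ) : ℝ) ≤ (⌊x ^ c⌋₊ : ℝ) := Nat.cast_le.2 h3
    rw [Nat.cast_one] at h4
    exact h4
  have hz0 : 0 < z := by linarith
  have hadd : ∀ a b : ℝ, x ^ a * x ^ b = x ^ (a + b) := fun a b => (Real.rpow_add hx0 a b).symm
  have hmono : ∀ {a b : ℝ}, a ≤ b → x ^ a ≤ x ^ b := fun h => Real.rpow_le_rpow_of_exponent_le hx1 h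
  have hp : ∀ a : ℝ, 0 < x ^ a := fun a => Real.rpow_pos_of_pos hx0 a
  -- the right side
  have hR : x ^ (u - 3 * c) / 16 ≤ N * L / (8 * z ^ 2) := by
    rw [div_le_div_iff₀ (by norm_num) (by positivity)]
    have h3 : z ^ 2 ≤ x ^ (2 * c) := by
      calc z ^ 2 ≤ (x ^ c) ^ 2 := pow_le_pow_left₀ hz0.le hz1 2
        _ = x ^ (2 * c) := by rw [← Real.rpow_natCast, ← Real.rpow_mul hx0.le]; congr 1; push_cast; ring
    calc x ^ (u - 3 * c) * (8 * z ^ 2) ≤ x ^ (u - 3 * c) * (8 * x ^ (2 * c)) := by gcongr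
      _ = 8 * (x ^ u * x ^ (-c)) := by
        rw [hadd, ← mul_assoc, mul_comm _ (8 : ℝ), mul_assoc, hadd]
        congr 2
        ring
      _ = (x ^ u / 2) * x ^ (-c) * 16 := by ring
      _ ≤ N * L * 16 := by gcongr
  -- first term
  have hT1 : (d.divisors.card : ℝ) * √N ≤ x ^ (u - 3 * c) / 64 := by
    have h3 : √N ≤ x ^ (u / 2) := by
      calc √N ≤ √(x ^ u) := Real.sqrt_le_sqrt hN1
        _ = x ^ (u / 2) := by
          rw [Real.sqrt_eq_rpow, ← Real.rpow_mul hx0.le]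
          congr 1
          ring
    have h4 : (d.divisors.card : ℝ) * √N ≤ x ^ (1 / 64 : ℝ) * x ^ (u / 2) :=
      mul_le_mul htau h3 (Real.sqrt_nonneg _) (by positivity)
    rw [hadd] at h4
    have h5 : x ^ (1 / 64 + u / 2) * 64 ≤ x ^ (1 / 64 + u / 2) * x ^ (1 / 32 : ℝ) := by gcongr
    rw [hadd] at h5
    have h6 : x ^ (1 / 64 + u / 2 + 1 / 32) ≤ x ^ (u - 3 * c) := hmono (by linarith)
    linarith
  -- second term
  have hT2 : (T : ℝ) * (x ^ (-(4 * c)) * N * (Nat.log 2 ⌊x ^ u⌋₊ + 1)) ≤ x ^ (u - 3 * c) / 64 := by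
    have h3 : ((Nat.log 2 ⌊x ^ u⌋₊ : ℕ) : ℝ) ≤ 2 * Real.log x := by
      have h4 := Real.natLog_le_logb ⌊x ^ u⌋₊ 2
      have h5 : Real.logb (2 : ℕ) (⌊x ^ u⌋₊ : ℝ) = Real.log N / Real.log 2 := by
        rw [Real.logb, Nat.cast_ofNat]
      rw [h5] at h4
      have h6 : Real.log N ≤ u * Real.log x := by
        rw [← Real.log_rpow hx0]
        exact Real.log_le_log hNpos hN1
      have h8 := Real.log_two_gt_d9
      have h9 : Real.log N / Real.log 2 ≤ 2 * Real.log x := by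
        rw [div_le_iff₀ (by linarith)]
        nlinarith
      exact h4.trans h9
    have h4 : ((Nat.log 2 ⌊x ^ u⌋₊ : ℕ) : ℝ) + 1 ≤ 2 * (1 + Real.log x) := by linarith
    have hTn : (0 : ℝ) ≤ T := Nat.cast_nonneg T
    have h5 : (T : ℝ) * (x ^ (-(4 * c)) * N * (Nat.log 2 ⌊x ^ u⌋₊ + 1)) ≤
        ((T : ℝ) + 1) * (x ^ (-(4 * c)) * x ^ u * (2 * (1 + Real.log x))) := by
      gcongr
      linarith
    have h6 : ((T : ℝ) + 1) * (x ^ (-(4 * c)) * x ^ u * (2 * (1 + Real.log x))) =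
        x ^ (u - 4 * c) * (256 * ((T : ℝ) + 1) * (1 + Real.log x)) / 128 := by
      rw [hadd]
      have : -(4 * c) + u = u - 4 * c := by ring
      rw [this]
      ring
    rw [h6] at h5
    have h7 : x ^ (u - 4 * c) * (256 * ((T : ℝ) + 1) * (1 + Real.log x)) ≤ x ^ (u - 4 * c) * x ^ (c / 2) := by gcongr
    rw [hadd] at h7
    have h8 : x ^ (u - 4 * c + c / 2) ≤ x ^ (u - 3 * c) := hmono (by linarith)
    have h9 := hp (u - 3 * c)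
    linarith
  -- third term
  have hT3 : z ^ (3 * K) * x ^ (u - s / 2) < x ^ (u - 3 * c) / 64 := by
    have h3 : z ^ (3 * K) ≤ x ^ (c * (3 * K)) := by
      calc z ^ (3 * K) ≤ (x ^ c) ^ (3 * K) := pow_le_pow_left₀ hz0.le hz1 _
        _ = x ^ (c * (3 * K)) := by
          rw [← Real.rpow_natCast, ← Real.rpow_mul hx0.le]
          congr 1
          push_cast
          ring
    have h4 : z ^ (3 * K) * x ^ (u - s / 2) ≤ x ^ (c * (3 * K)) * x ^ (u - s / 2) := by gcongr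
    rw [hadd] at h4
    have h5 : x ^ (c * (3 * K) + (u - s / 2)) ≤ x ^ (u - 3 * c - c / 2) := hmono (by nlinarith)
    have h6 : x ^ (u - 3 * c - c / 2) * 64 < x ^ (u - 3 * c - c / 2) * x ^ (c / 2) :=
      mul_lt_mul_of_pos_left h64' (hp _)
    rw [hadd] at h6
    have h7 : u - 3 * c - c / 2 + c / 2 = u - 3 * c := by ring
    rw [h7] at h6
    linarith
  have h9 := hp (u - 3 * c)
  linarith

end Pool.Agent.Lib.MP_42948a_nt.TR
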