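import Pool.Agent.Lib.MP_42948a_nt.TR.S2
import Pool.Agent.Lib.MP_42948a_nt.OA.SO

/-!
# Many split primes of length `d ^ (1/4 + ..)`
-/

namespace Pool.Agent.Lib.MP_42948a_nt.TR

open Finset Pool.Agent.Lib.MP_42948a_nt.OA Pool.Agent.Lib.MP_42948a_nt.AC Pool.Agent.Lib.MP_42948a_nt.TQ
  Pool.Agent.Lib.MP_42948a_nt.PS Pool.Agent.Lib.MP_42948a_nt.EX

private theorem S3_ev (c : ℝ) (hc : 0 < c) (C : ℝ) : ∀ᶠ d : ℕ in Filter.atTop, C ≤ (d : ℝ) ^ c :=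
  ((tendsto_rpow_atTop hc).comp tendsto_natCast_atTop_atTop).eventually_ge_atTop C

theorem log_le_pow (c : ℝ) (hc : 0 < c) (C : ℝ) (hC : 0 < C) :
    ∀ᶠ d : ℕ in Filter.atTop, C * (1 + Real.log d) ≤ (d : ℝ) ^ c := by
  have e1 : ∀ᶠ x : ℝ in Filter.atTop, ‖Real.log x‖ ≤ 1 * ‖x ^ (c / 2)‖ :=
    (isLittleO_log_rpow_atTop (by positivity)).bound one_pos
  have ht := tendsto_natCast_atTop_atTop (R := ℝ)
  filter_upwards [ht.eventually e1, S3_ev (c / 2) (by positivity) (2 * C), S3_ev (c / 2) (by positivity) 1,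
    Filter.eventually_ge_atTop 1] with d h1 h2 h3 h4
  have hd0 : (0 : ℝ) < d := by exact_mod_cast h4
  have h5 : Real.log d ≤ (d : ℝ) ^ (c / 2) := by
    rw [one_mul, Real.norm_eq_abs, Real.norm_eq_abs, abs_of_nonneg (by positivity : 0 ≤ (d : ℝ) ^ (c / 2))] at h1
    exact (le_abs_self _).trans h1
  have h6 : (d : ℝ) ^ c = (d : ℝ) ^ (c / 2) * (d : ℝ) ^ (c / 2) := by
    rw [← Real.rpow_add hd0]
    congr 1
    ring
  rw [h6]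
  calc C * (1 + Real.log d) ≤ C * ((d : ℝ) ^ (c / 2) + (d : ℝ) ^ (c / 2)) := by gcongr
    _ = (2 * C) * (d : ℝ) ^ (c / 2) := by ring
    _ ≤ (d : ℝ) ^ (c / 2) * (d : ℝ) ^ (c / 2) := by gcongr

/-- There are many primes `≤ d ^ (1/4 + 3 κ)` with `ψ = 1`. -/
theorem split_short (κ : ℝ) (hκ : 0 < κ) (hκ1 : κ ≤ 1 / 100) : ∃ c0 : ℝ, 0 < c0 ∧ ∀ c : ℝ, 0 < c → c ≤ c0 →
    ∃ d0 : ℕ, ∀ d : ℕ, d0 ≤ d → ∀ ψ : (ZMod d)ˣ →* ℤˣ, ψ ≠ 1 → ∃ D : ℕ, 1 ≤ D ∧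
      (d : ℝ) ^ (-(4 * c)) * D < ((PD d ⌊(d : ℝ) ^ c⌋₊ ⌊(d : ℝ) ^ (1 / 4 + 3 * κ)⌋₊ (chi ψ) D).card : ℝ) := by
  obtain ⟨κ', hκ', d1, h1⟩ := chi_burgess κ hκ
  obtain ⟨K, hK⟩ := Pool.Agent.Lib.MP_42948a_nt.OA.sieve
  obtain ⟨s, hsd⟩ : ∃ s : ℝ, s = min (2 * κ) κ' := ⟨_, rfl⟩
  have hs0 : 0 < s := by rw [hsd]; exact lt_min (by positivity) hκ'
  have hs1 : s ≤ 2 * κ := by rw [hsd]; exact min_le_left _ _
  have hs2 : s ≤ κ' := by rw [hsd]; exact min_le_right _ _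
  have hK4 : (0 : ℝ) < 4 * (3 * K + 4) := by positivity
  refine ⟨min (1 / 64) (min (s / (4 * (3 * K + 4))) (κ' / 8)),
    lt_min (by norm_num) (lt_min (by positivity) (by positivity)), fun c hc hcle => ?_⟩
  have hc1 : c ≤ 1 / 64 := hcle.trans (min_le_left _ _)
  have hc2 : c * (3 * K + 4) ≤ s / 4 := by
    have h2 : c ≤ s / (4 * (3 * K + 4)) := hcle.trans ((min_le_right _ _).trans (min_le_left _ _))
    rw [le_div_iff₀ hK4] at h2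
    linarith
  have hc3 : 8 * c ≤ κ' := by
    have h2 : c ≤ κ' / 8 := hcle.trans ((min_le_right _ _).trans (min_le_right _ _))
    linarith
  obtain ⟨d2, h2⟩ := LL_big (1 / 100) (c / 2) (by norm_num) le_rfl (by positivity) (by linarith)
  obtain ⟨d3, h3⟩ := S2_num (1 / 4 + 3 * κ) s c K (2 ^ ⌈2 / c⌉₊) (by linarith) (by linarith) hs0 hc hc1 hc2
  have e5 : ∀ᶠ d : ℕ in Filter.atTop, 2 * (1 + Real.log d) ≤ (d : ℝ) ^ (s / 2) ∧ 2 * (1 + Real.log d) ≤ (d : ℝ) ^ c ∧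
      2 ≤ (d : ℝ) ^ (c / 2) ∧ 2 ≤ (d : ℝ) ^ c ∧ 2 ≤ (d : ℝ) ^ (2 * κ) ∧ 2 ≤ d := by
    filter_upwards [log_le_pow (s / 2) (by positivity) 2 (by norm_num), log_le_pow c hc 2 (by norm_num),
      S3_ev (c / 2) (by positivity) 2, S3_ev c hc 2, S3_ev (2 * κ) (by positivity) 2,
      Filter.eventually_ge_atTop 2] with d a1 a2 a3 a4 a5 a6
    exact ⟨a1, a2, a3, a4, a5, a6⟩
  obtain ⟨d4, hd4⟩ := Filter.eventually_atTop.mp e5
  refine ⟨d1 + d2 + d3 + d4, fun d hd ψ hψ => ?_⟩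
  obtain ⟨n1, n2, n3, n4, n5, hd2⟩ := hd4 d (by omega)
  have hne : NeZero d := ⟨by omega⟩
  by_contra hno
  push Not at hno
  have hx2 : (2 : ℝ) ≤ (d : ℝ) := by exact_mod_cast hd2
  have hx1 : (1 : ℝ) ≤ (d : ℝ) := by linarith
  have hx0 : (0 : ℝ) < (d : ℝ) := by linarith
  have hlog0 : 0 ≤ Real.log (d : ℝ) := Real.log_nonneg hx1
  have hadd : ∀ a b : ℝ, (d : ℝ) ^ a * (d : ℝ) ^ b = (d : ℝ) ^ (a + b) := fun a b => (Real.rpow_add hx0 a b).symm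
  have hmono : ∀ {a b : ℝ}, a ≤ b → (d : ℝ) ^ a ≤ (d : ℝ) ^ b := fun h => Real.rpow_le_rpow_of_exponent_le hx1 h
  have hp : ∀ a : ℝ, 0 < (d : ℝ) ^ a := fun a => Real.rpow_pos_of_pos hx0 a
  obtain ⟨u, hu⟩ : ∃ u : ℝ, u = 1 / 4 + 3 * κ := ⟨_, rfl⟩
  rw [← hu] at hno h3
  obtain ⟨X, hX⟩ : ∃ X : ℕ, X = ⌊(d : ℝ) ^ u⌋₊ := ⟨_, rfl⟩
  obtain ⟨z, hz⟩ : ∃ z : ℕ, z = ⌊(d : ℝ) ^ c⌋₊ := ⟨_, rfl⟩
  rw [← hX, ← hz] at hno
  have hXu : (X : ℝ) ≤ (d : ℝ) ^ u := by rw [hX]; exact Nat.floor_le (hp _).le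
  have hXk : (d : ℝ) ^ (1 / 4 + κ) ≤ X := by
    have h4 : (d : ℝ) ^ u < (X : ℝ) + 1 := by rw [hX]; exact Nat.lt_floor_add_one _
    have h5 : (d : ℝ) ^ (1 / 4 + κ) * 2 ≤ (d : ℝ) ^ u := by
      calc (d : ℝ) ^ (1 / 4 + κ) * 2 ≤ (d : ℝ) ^ (1 / 4 + κ) * (d : ℝ) ^ (2 * κ) := by gcongr
        _ = (d : ℝ) ^ u := by rw [hadd, hu]; congr 1; ring
    have h6 : (1 : ℝ) ≤ (d : ℝ) ^ (1 / 4 + κ) := Real.one_le_rpow hx1 (by linarith)
    linarith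
  have hX1 : 1 ≤ X := by
    have h6 : (1 : ℝ) ≤ (d : ℝ) ^ (1 / 4 + κ) := Real.one_le_rpow hx1 (by linarith)
    exact_mod_cast h6.trans hXk
  have hXpos : (0 : ℝ) < X := by exact_mod_cast hX1
  have hXd : (X : ℝ) ≤ d := by
    calc (X : ℝ) ≤ (d : ℝ) ^ u := hXu
      _ ≤ (d : ℝ) ^ (1 : ℝ) := hmono (by linarith)
      _ = d := Real.rpow_one _
  have hlogX : Real.log X ≤ Real.log d := Real.log_le_log hXpos hXd
  have hlogX0 : 0 ≤ Real.log (X : ℝ) := Real.log_nonneg (by exact_mod_cast hX1)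
  have hz2 : 2 ≤ z := by
    rw [hz]
    exact Nat.le_floor (by exact_mod_cast n4)
  have hχ := chi_real d ψ
  -- partial sums
  have hM : ∀ N : ℕ, N ≤ X → |∑ n ∈ Icc 1 N, chi ψ n| ≤ (d : ℝ) ^ (u - s) := by
    intro N hN
    have hNX : (N : ℝ) ≤ X := by exact_mod_cast hN
    rcases le_or_gt ((d : ℝ) ^ (1 / 4 + κ)) (N : ℝ) with h | h
    · refine (h1 d (by omega) ψ hψ N h).trans ?_
      calc (N : ℝ) * (d : ℝ) ^ (-κ') ≤ (d : ℝ) ^ u * (d : ℝ) ^ (-κ') := by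
            have := hNX.trans hXu
            gcongr
        _ = (d : ℝ) ^ (u + -κ') := hadd _ _
        _ ≤ (d : ℝ) ^ (u - s) := hmono (by linarith)
    · have h4 : |∑ n ∈ Icc 1 N, chi ψ n| ≤ N := by
        refine (abs_sum_le_sum_abs _ _).trans ?_
        calc ∑ n ∈ Icc 1 N, |chi ψ n| ≤ ∑ n ∈ Icc 1 N, (1 : ℝ) := by
              refine sum_le_sum fun n _ => ?_
              rcases hχ.val n with h5 | h5 | h5 <;> rw [h5] <;> norm_num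
          _ = N := by simp
      refine h4.trans (h.le.trans (hmono ?_))
      rw [hu]
      linarith
  have hbase : ∀ t : ℝ, 0 < t → t ≤ X → |SwT (chi ψ) X ∅ t - t / 2 * LL (chi ψ) X| ≤ (d : ℝ) ^ (u - s / 2) := by
    intro t ht htX
    refine (Sw_trunc (chi ψ) X hX1 _ hM t ht htX).trans ?_
    calc (d : ℝ) ^ (u - s) * (2 + Real.log X) ≤ (d : ℝ) ^ (u - s) * (2 * (1 + Real.log d)) := by
          gcongr
          linarith
      _ ≤ (d : ℝ) ^ (u - s) * (d : ℝ) ^ (s / 2) := by gcongr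
      _ = (d : ℝ) ^ (u - s / 2) := by rw [hadd]; congr 1; ring
  -- the value of the L-function
  have hLLX : (d : ℝ) ^ (-c) ≤ LL (chi ψ) X := by
    obtain ⟨Y, hY⟩ : ∃ Y : ℕ, Y = ⌊(d : ℝ) ^ (1 + 2 * (1 / 100) : ℝ)⌋₊ := ⟨_, rfl⟩
    have h4 := (h2 d (by omega) ψ hψ).2
    rw [← hY] at h4
    have hYd : (Y : ℝ) ≤ (d : ℝ) ^ (2 : ℝ) := by
      rw [hY]
      exact (Nat.floor_le (hp _).le).trans (hmono (by norm_num))
    have hXY : X ≤ Y := by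
      rw [hX, hY]
      exact Nat.floor_le_floor (hmono (by rw [hu]; linarith))
    have hYpos : (0 : ℝ) < Y := lt_of_lt_of_le hXpos (by exact_mod_cast hXY)
    have h5 := abel_tail (chi ψ) X hX1 ((d : ℝ) ^ (-κ')) (hp _).le
      (fun N hN => h1 d (by omega) ψ hψ N (hXk.trans (by exact_mod_cast hN))) Y hXY
    have h6 : Real.log Y ≤ 2 * Real.log d := by
      have h7 := Real.log_le_log hYpos hYd
      rwa [Real.log_rpow hx0] at h7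
    have h8 : (d : ℝ) ^ (-κ') * (2 + (Real.log Y - Real.log X)) ≤ (d : ℝ) ^ (-c) := by
      calc (d : ℝ) ^ (-κ') * (2 + (Real.log Y - Real.log X)) ≤ (d : ℝ) ^ (-κ') * (2 * (1 + Real.log d)) := by
            gcongr
            linarith
        _ ≤ (d : ℝ) ^ (-κ') * (d : ℝ) ^ c := by gcongr
        _ = (d : ℝ) ^ (-κ' + c) := hadd _ _
        _ ≤ (d : ℝ) ^ (-c) := hmono (by linarith)
    have h9 : 2 * (d : ℝ) ^ (-c) ≤ (d : ℝ) ^ (-(c / 2)) := by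
      calc 2 * (d : ℝ) ^ (-c) ≤ (d : ℝ) ^ (c / 2) * (d : ℝ) ^ (-c) := by
            have := hp (-c)
            gcongr
        _ = (d : ℝ) ^ (-(c / 2)) := by rw [hadd]; congr 1; ring
    have h10 := (abs_le.1 h5).2
    linarith
  have hLL0 : 0 ≤ LL (chi ψ) X := (hp _).le.trans hLLX
  have hlow := lower_base K hK z X hz2 hX1 (chi ψ) hχ.mul hχ.one hχ.val ((d : ℝ) ^ (u - s / 2)) (hp _) hbase hLL0
  have hTd : ∀ n : ℕ, Rough z n → n ≤ X → n.divisors.card ≤ 2 ^ ⌈2 / c⌉₊ := by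
    intro n hn hnX
    rw [hz] at hn
    refine rough_divisors c hc d hd2 n hn ?_
    have h4 : (n : ℝ) ≤ X := by exact_mod_cast hnX
    exact (h4.trans hXu).trans (hmono (by rw [hu]; linarith))
  have hup := upper_sum d (by omega) z X (2 ^ ⌈2 / c⌉₊) (chi ψ) hχ ((d : ℝ) ^ (-(4 * c))) (hp _).le hno hTd
  have hnum := h3 d (by omega) (LL (chi ψ) X) hLLX
  rw [← hX, ← hz] at hnum
  linarith

end Pool.Agent.Lib.MP_42948a_nt.TR
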