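import Pool.Agent.Lib.MP_42948a_nt.TF.T1
import Pool.Agent.Lib.MP_42948a_nt.TF.A1
import Pool.Agent.Lib.MP_42948a_nt.PS.Defs

/-!
# Products of several weights on the classes
-/

namespace Pool.Agent.Lib.MP_42948a_nt.TR

open Finset Pool.Agent.Lib.MP_42948a_nt.OA Pool.Agent.Lib.MP_42948a_nt.TQ Pool.Agent.Lib.MP_42948a_nt.PS
  Pool.Agent.Lib.MP_42948a_nt.TF

section
variable {d : ℕ} [NeZero d]

/-- multiplication of the argument by the classes of `A` with the weights `1 / n` -/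
noncomputable def mu (A : Finset ℕ) (F : (ZMod d)ˣ → ℝ) (x : (ZMod d)ˣ) : ℝ :=
  ∑ n ∈ A, 1 / (n : ℝ) * F (x * (ucl d n)⁻¹)

/-- the character sum of `A` with the weights `1 / n` -/
noncomputable def DA (A : Finset ℕ) (χ : DirichletCharacter ℂ d) : ℂ :=
  ∑ n ∈ A, ((1 / (n : ℝ) : ℝ) : ℂ) * (starRingEnd ℂ) (ev χ (ucl d n))

/-- the same for a list of sets -/
noncomputable def mus (L : List (Finset ℕ)) (F : (ZMod d)ˣ → ℝ) : (ZMod d)ˣ → ℝ := L.foldr mu F

/-- the density of the class `1` -/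
noncomputable def dl (d : ℕ) [NeZero d] (x : (ZMod d)ˣ) : ℝ :=
  open Classical in if x = 1 then (Fintype.card (ZMod d)ˣ : ℝ) else 0

theorem mus_nil (F : (ZMod d)ˣ → ℝ) : mus [] F = F := rfl

theorem mus_cons (A : Finset ℕ) (L : List (Finset ℕ)) (F : (ZMod d)ˣ → ℝ) : mus (A :: L) F = mu A (mus L F) := rfl

theorem mus_append (L L' : List (Finset ℕ)) (F : (ZMod d)ˣ → ℝ) : mus (L ++ L') F = mus L (mus L' F) := by
  unfold mus
  rw [List.foldr_append]

theorem sm_mu (β : (ZMod d)ˣ → ℝ) (A : Finset ℕ) : sm β A = mu A β := rfl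

theorem mu_nonneg (A : Finset ℕ) {F : (ZMod d)ˣ → ℝ} (h : ∀ x, 0 ≤ F x) (x : (ZMod d)ˣ) : 0 ≤ mu A F x :=
  Finset.sum_nonneg fun n _ => mul_nonneg (by positivity) (h _)

theorem mu_mono (A : Finset ℕ) {F F' : (ZMod d)ˣ → ℝ} (h : ∀ x, F x ≤ F' x) (x : (ZMod d)ˣ) : mu A F x ≤ mu A F' x :=
  Finset.sum_le_sum fun n _ => mul_le_mul_of_nonneg_left (h _) (by positivity)

theorem mu_sub (A : Finset ℕ) (F F' : (ZMod d)ˣ → ℝ) (x : (ZMod d)ˣ) : mu A (fun y => F y - F' y) x = mu A F x - mu A F' x := by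
  unfold mu
  rw [← Finset.sum_sub_distrib]
  exact Finset.sum_congr rfl fun n _ => by ring

theorem mu_smul (A : Finset ℕ) (c : ℝ) (F : (ZMod d)ˣ → ℝ) (x : (ZMod d)ˣ) : mu A (fun y => c * F y) x = c * mu A F x := by
  unfold mu
  rw [Finset.mul_sum]
  exact Finset.sum_congr rfl fun n _ => by ring

theorem av_mu (A : Finset ℕ) (F : (ZMod d)ˣ → ℝ) : av (mu A F) = Wt A * av F := by
  have h1 : mu A F = fun x => ∑ n ∈ A, 1 / (n : ℝ) * F (x * (ucl d n)⁻¹) := rfl
  rw [h1, av_sum]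
  unfold Wt
  rw [Finset.sum_mul]
  refine Finset.sum_congr rfl fun n _ => ?_
  rw [av_mul_left, av_shift]

theorem mus_nonneg (L : List (Finset ℕ)) {F : (ZMod d)ˣ → ℝ} (h : ∀ x, 0 ≤ F x) (x : (ZMod d)ˣ) : 0 ≤ mus L F x := by
  induction L generalizing x with
  | nil => exact h x
  | cons A L ih => exact mu_nonneg A (fun y => ih y) x

theorem mus_mono (L : List (Finset ℕ)) {F F' : (ZMod d)ˣ → ℝ} (h : ∀ x, F x ≤ F' x) (x : (ZMod d)ˣ) :
    mus L F x ≤ mus L F' x := by
  induction L generalizing x with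
  | nil => exact h x
  | cons A L ih => exact mu_mono A (fun y => ih y) x

theorem mus_sub (L : List (Finset ℕ)) (F F' : (ZMod d)ˣ → ℝ) (x : (ZMod d)ˣ) :
    mus L (fun y => F y - F' y) x = mus L F x - mus L F' x := by
  induction L generalizing x with
  | nil => rfl
  | cons A L ih =>
    rw [mus_cons, mus_cons, mus_cons]
    have h1 : mus L (fun y => F y - F' y) = fun y => mus L F y - mus L F' y := funext fun y => ih y
    rw [h1, mu_sub]

theorem mus_smul (L : List (Finset ℕ)) (c : ℝ) (F : (ZMod d)ˣ → ℝ) (x : (ZMod d)ˣ) :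
    mus L (fun y => c * F y) x = c * mus L F x := by
  induction L generalizing x with
  | nil => rfl
  | cons A L ih =>
    rw [mus_cons, mus_cons]
    have h1 : mus L (fun y => c * F y) = fun y => c * mus L F y := funext fun y => ih y
    rw [h1, mu_smul]

theorem av_mus (L : List (Finset ℕ)) (F : (ZMod d)ˣ → ℝ) : av (mus L F) = (L.map Wt).prod * av F := by
  induction L with
  | nil => rw [mus_nil, List.map_nil, List.prod_nil, one_mul]
  | cons A L ih => rw [mus_cons, av_mu, ih, List.map_cons, List.prod_cons, mul_assoc]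

theorem SF_mu (A : Finset ℕ) (F : (ZMod d)ˣ → ℝ) (χ : DirichletCharacter ℂ d) : SF (mu A F) χ = DA A χ * SF F χ := by
  rw [← sm_mu, SF_sm, mul_comm]
  rfl

theorem SF_mus (L : List (Finset ℕ)) (F : (ZMod d)ˣ → ℝ) (χ : DirichletCharacter ℂ d) :
    SF (mus L F) χ = (L.map fun A => DA A χ).prod * SF F χ := by
  induction L with
  | nil => rw [mus_nil, List.map_nil, List.prod_nil, one_mul]
  | cons A L ih => rw [mus_cons, SF_mu, ih, List.map_cons, List.prod_cons, mul_assoc]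

theorem phi_pos (d : ℕ) [NeZero d] : (0 : ℝ) < (Fintype.card (ZMod d)ˣ : ℝ) := by
  exact_mod_cast Fintype.card_pos

/-- the mean square of a function -/
theorem av_sq (F : (ZMod d)ˣ → ℝ) :
    av (fun x => F x ^ 2) = (∑ χ : DirichletCharacter ℂ d, ‖SF F χ‖ ^ 2) / (Fintype.card (ZMod d)ˣ : ℝ) ^ 2 := by
  have hφ := phi_pos d
  rw [parseval_SF]
  unfold av
  field_simp

/-- the mean square of a product of weights -/
theorem av_sq_mus (L : List (Finset ℕ)) (F : (ZMod d)ˣ → ℝ) :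
    av (fun x => mus L F x ^ 2) = ∑ χ : DirichletCharacter ℂ d, ‖(L.map fun A => DA A χ).prod‖ ^ 2 *
      (‖SF F χ‖ / (Fintype.card (ZMod d)ˣ : ℝ)) ^ 2 := by
  have hφ := phi_pos d
  rw [av_sq, Finset.sum_div]
  refine Finset.sum_congr rfl fun χ _ => ?_
  rw [SF_mus, norm_mul]
  field_simp

theorem SF_dl (χ : DirichletCharacter ℂ d) : SF (dl d) χ = (Fintype.card (ZMod d)ˣ : ℂ) := by
  classical
  unfold SF dl
  rw [Finset.sum_eq_single 1]
  · rw [if_pos rfl, ev_one, map_one, mul_one]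
    push_cast
    rfl
  · intro x _ hx
    rw [if_neg hx, Complex.ofReal_zero, zero_mul]
  · intro h
    exact absurd (Finset.mem_univ _) h

theorem dl_nonneg (x : (ZMod d)ˣ) : 0 ≤ dl d x := by
  unfold dl
  split_ifs
  · exact (phi_pos d).le
  · exact le_rfl

/-- the difference to the smoothed function -/
theorem av_sq_diff {X : Finset (DirichletCharacter ℂ d)} {η Q : ℝ} {β : (ZMod d)ˣ → ℝ} {b : DirichletCharacter ℂ d → ℝ}
    (hK : Ker X η Q β b) (L : List (Finset ℕ)) :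
    av (fun x => (mus L (dl d) x - mus L β x) ^ 2) = ∑ χ : DirichletCharacter ℂ d,
      ‖(L.map fun A => DA A χ).prod‖ ^ 2 * (1 - b χ) ^ 2 := by
  have hφ := phi_pos d
  have h1 : (fun x => (mus L (dl d) x - mus L β x) ^ 2) = fun x => mus L (fun y => dl d y - β y) x ^ 2 := by
    funext x
    rw [mus_sub]
  rw [h1, av_sq_mus]
  refine Finset.sum_congr rfl fun χ _ => ?_
  have h2 : SF (fun y => dl d y - β y) χ = SF (dl d) χ - SF β χ := by
    unfold SF
    rw [← Finset.sum_sub_distrib]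
    refine Finset.sum_congr rfl fun c _ => ?_
    push_cast
    ring
  have h3 : ‖SF (fun y => dl d y - β y) χ‖ = (Fintype.card (ZMod d)ˣ : ℝ) * |1 - b χ| := by
    rw [h2, SF_dl, hK.coef]
    have h4 : (Fintype.card (ZMod d)ˣ : ℂ) - (((Fintype.card (ZMod d)ˣ : ℝ) * b χ : ℝ) : ℂ) =
        (((Fintype.card (ZMod d)ˣ : ℝ) * (1 - b χ) : ℝ) : ℂ) := by
      push_cast
      ring
    rw [h4, Complex.norm_real, Real.norm_eq_abs, abs_mul, abs_of_pos hφ]
  rw [h3, mul_div_cancel_left₀ _ hφ.ne', sq_abs]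

/-- where a product of weights does not vanish there is a representation -/
theorem mus_rep (L : List (Finset ℕ)) (hL : ∀ A ∈ L, ∀ n ∈ A, n.Coprime d) (x : (ZMod d)ˣ) (hx : mus L (dl d) x ≠ 0) :
    ∃ ns : List ℕ, List.Forall₂ (fun n A => n ∈ A) ns L ∧ ns.prod.Coprime d ∧ ucl d ns.prod = x := by
  induction L generalizing x with
  | nil =>
    refine ⟨[], List.Forall₂.nil, ?_, ?_⟩
    · rw [List.prod_nil]
      exact Nat.coprime_one_left d
    · rw [mus_nil] at hx
      unfold dl at hx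
      have h1 : x = 1 := by
        by_contra h
        rw [if_neg h] at hx
        exact hx rfl
      rw [List.prod_nil, h1]
      refine ucl_eq (Nat.coprime_one_left d) ?_
      rw [Nat.cast_one, Units.val_one]
  | cons A L ih =>
    rw [mus_cons] at hx
    obtain ⟨n, hn, hn'⟩ := Finset.exists_ne_zero_of_sum_ne_zero hx
    have h2 := right_ne_zero_of_mul hn'
    obtain ⟨ns, h3, h4, h5⟩ := ih (fun B hB => hL B (List.mem_cons_of_mem _ hB)) _ h2
    have hnc := hL A List.mem_cons_self n hn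
    refine ⟨n :: ns, List.Forall₂.cons hn h3, ?_, ?_⟩
    · rw [List.prod_cons]
      exact Nat.Coprime.mul_left hnc h4
    · rw [List.prod_cons, ucl_mul hnc h4, h5]
      rw [mul_comm, inv_mul_cancel_right]

theorem DA_le (A : Finset ℕ) (χ : DirichletCharacter ℂ d) : ‖DA A χ‖ ≤ Wt A := by
  unfold DA Wt
  refine (norm_sum_le _ _).trans (Finset.sum_le_sum fun n _ => ?_)
  rw [norm_mul, RCLike.norm_conj, norm_ev, mul_one, Complex.norm_real, Real.norm_eq_abs,
    abs_of_nonneg (by positivity)]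

theorem DA_Pa (A : Finset ℕ) (hA : ∀ n ∈ A, n.Coprime d) (hW : 0 < Wt A) (χ : DirichletCharacter ℂ d) :
    ‖DA A χ‖ = Wt A * ‖Pa A χ‖ := by
  have h1 : DA A χ = (starRingEnd ℂ) (((Wt A : ℝ) : ℂ) * Pa A χ) := by
    have h0 : ((Wt A : ℝ) : ℂ) ≠ 0 := by exact_mod_cast hW.ne'
    unfold DA Pa
    rw [mul_div_cancel₀ _ h0, map_sum]
    refine Finset.sum_congr rfl fun p hp => ?_
    rw [map_mul, Complex.conj_ofReal]
    unfold ev
    rw [ucl_val (hA p hp)]
  rw [h1, RCLike.norm_conj, norm_mul, Complex.norm_real, Real.norm_eq_abs, abs_of_pos hW]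

end

end Pool.Agent.Lib.MP_42948a_nt.TR
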