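import Pool.Agent.Lib.MP_42948a_nt.TR.S5
import Pool.Agent.Lib.MP_42948a_nt.TS.Mu

/-!
# The lower bound for the smoothed function on the classes of one parity
-/

set_option linter.unusedSectionVars false

namespace Pool.Agent.Lib.MP_42948a_nt.TR

open Finset Pool.Agent.Lib.MP_42948a_nt.OA Pool.Agent.Lib.MP_42948a_nt.TQ Pool.Agent.Lib.MP_42948a_nt.PS
  Pool.Agent.Lib.MP_42948a_nt.TF

section
variable {d : ℕ} [NeZero d]

/-- the indicator function of `ψ = s` -/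
noncomputable def Es (ψ : (ZMod d)ˣ →* ℤˣ) (s : ℤˣ) (x : (ZMod d)ˣ) : ℝ := if ψ x = s then 1 else 0

/-- the weight of the elements of `A` with `ψ = t` -/
noncomputable def qs (ψ : (ZMod d)ˣ →* ℤˣ) (t : ℤˣ) (A : Finset ℕ) : ℝ :=
  ∑ n ∈ A.filter (fun n => ψ (ucl d n) = t), 1 / (n : ℝ)

theorem Es_nonneg (ψ : (ZMod d)ˣ →* ℤˣ) (s : ℤˣ) (x : (ZMod d)ˣ) : 0 ≤ Es ψ s x := by
  unfold Es
  split_ifs
  · exact zero_le_one
  · exact le_rfl

theorem qs_nonneg (ψ : (ZMod d)ˣ →* ℤˣ) (t : ℤˣ) (A : Finset ℕ) : 0 ≤ qs ψ t A :=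
  Finset.sum_nonneg fun n _ => by positivity

theorem mu_Es (ψ : (ZMod d)ˣ →* ℤˣ) (s t : ℤˣ) (A : Finset ℕ) (x : (ZMod d)ˣ) :
    qs ψ t A * Es ψ (s * t) x ≤ mu A (Es ψ s) x := by
  unfold qs mu
  rw [Finset.sum_mul]
  refine le_trans (le_of_eq ?_) (Finset.sum_le_sum_of_subset_of_nonneg (Finset.filter_subset (fun n => ψ (ucl d n) = t) A)
    fun n _ _ => mul_nonneg (by positivity) (Es_nonneg ψ s _))
  refine Finset.sum_congr rfl fun n hn => ?_
  have h1 : ψ (ucl d n) = t := (Finset.mem_filter.1 hn).2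
  have h2 : Es ψ (s * t) x = Es ψ s (x * (ucl d n)⁻¹) := by
    unfold Es
    rw [map_mul, map_inv, h1]
    by_cases h : ψ x = s * t
    · rw [if_pos h, h, if_pos (mul_inv_cancel_right s t)]
    · rw [if_neg h, if_neg]
      intro h3
      exact h (mul_inv_eq_iff_eq_mul.1 h3)
  rw [h2]

theorem qs_compl (ψ : (ZMod d)ˣ →* ℤˣ) (A : Finset ℕ) : qs ψ (-1) A = Wt A - qs ψ 1 A := by
  unfold qs Wt
  rw [eq_sub_iff_add_eq, add_comm, ← Finset.sum_filter_add_sum_filter_not A (fun n => ψ (ucl d n) = 1)]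
  congr 1
  refine Finset.sum_congr (Finset.filter_congr fun n _ => ?_) fun _ _ => rfl
  rcases Int.units_eq_one_or (ψ (ucl d n)) with h | h
  · rw [h]
    exact ⟨fun h1 => absurd h1 (by decide), fun h1 => absurd rfl h1⟩
  · rw [h]
    exact ⟨fun _ => by decide, fun _ => rfl⟩

theorem mus_rep_Es (ψ : (ZMod d)ˣ →* ℤˣ) (P : Finset ℕ) (F : (ZMod d)ˣ → ℝ) (c : ℝ) (hc : 0 ≤ c) (s : ℤˣ)
    (hF : ∀ x, c * Es ψ s x ≤ F x) (k : ℕ) (x : (ZMod d)ˣ) :
    c * qs ψ (-1) P ^ k * Es ψ (s * (-1) ^ k) x ≤ mus (List.replicate k P) F x := by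
  induction k generalizing x with
  | zero =>
    rw [pow_zero, pow_zero, mul_one, mul_one]
    exact hF x
  | succ k ih =>
    rw [List.replicate_succ, mus_cons]
    have h1 := mu_Es ψ (s * (-1) ^ k) (-1) P x
    have h2 : mu P (fun y => (c * qs ψ (-1) P ^ k) * Es ψ (s * (-1) ^ k) y) x ≤ mu P (mus (List.replicate k P) F) x :=
      mu_mono P ih x
    rw [mu_smul] at h2
    refine le_trans ?_ h2
    rw [pow_succ (-1 : ℤˣ) k, ← mul_assoc s]
    have h3 : 0 ≤ c * qs ψ (-1) P ^ k := mul_nonneg hc (pow_nonneg (qs_nonneg _ _ _) _)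
    have h4 := mul_le_mul_of_nonneg_left h1 h3
    refine le_trans (le_of_eq ?_) h4
    ring

theorem mus_lower (ψ : (ZMod d)ˣ →* ℤˣ) (s : ℤˣ) (k : ℕ) (P T P' : Finset ℕ) (hT : ∀ t ∈ T, ψ (ucl d t) = 1) (x : (ZMod d)ˣ) :
    qs ψ (-1) P ^ k * (Wt T * qs ψ (-1) P') * Es ψ (s * (-1) ^ (k + 1)) x ≤
      mus (List.replicate k P ++ [T, P']) (Es ψ s) x := by
  have h0 : qs ψ 1 T = Wt T := by
    unfold qs Wt
    rw [Finset.filter_true_of_mem hT]
  have h1 : ∀ y, Wt T * qs ψ (-1) P' * Es ψ (s * (-1)) y ≤ mus [T, P'] (Es ψ s) y := by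
    intro y
    rw [mus_cons, mus_cons, mus_nil]
    have h2 : mu T (fun z => qs ψ (-1) P' * Es ψ (s * (-1)) z) y ≤ mu T (mu P' (Es ψ s)) y :=
      mu_mono T (fun z => mu_Es ψ s (-1) P' z) y
    rw [mu_smul] at h2
    refine le_trans ?_ h2
    have h3 := mu_Es ψ (s * (-1)) 1 T y
    rw [h0, mul_one] at h3
    have h4 := mul_le_mul_of_nonneg_left h3 (qs_nonneg ψ (-1) P')
    refine le_trans (le_of_eq ?_) h4
    ring
  have h2 := mus_rep_Es ψ P (mus [T, P'] (Es ψ s)) (Wt T * qs ψ (-1) P')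
    (mul_nonneg (Finset.sum_nonneg fun n _ => by positivity) (qs_nonneg _ _ _)) (s * (-1)) h1 k x
  rw [mus_append]
  refine le_trans (le_of_eq ?_) h2
  rw [pow_succ' (-1 : ℤˣ) k, ← mul_assoc s]
  ring

theorem mass_lower {p q a b σ ω : ℝ} {k : ℕ} (hω : 0 < ω) (hp : ω ≤ p) (hq : ω ≤ q) (hσ0 : 0 ≤ σ) (hσ : σ * (4 * (k + 1)) ≤ ω)
    (ha : p - σ ≤ a) (hb : q - σ ≤ b) : 3 / 4 * (p ^ k * q) ≤ a ^ k * b := by
  have hk : (0 : ℝ) < 4 * (k + 1) := by positivity
  obtain ⟨r, hr⟩ : ∃ r : ℝ, r = 1 / (4 * (k + 1)) := ⟨_, rfl⟩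
  have hr0 : 0 < r := by
    rw [hr]
    positivity
  have hr1 : r * (4 * (k + 1)) = 1 := by
    rw [hr, one_div, inv_mul_cancel₀ hk.ne']
  have hr2 : r ≤ 1 / 4 := by
    have : (0 : ℝ) ≤ k := Nat.cast_nonneg k
    nlinarith
  have hσ1 : σ ≤ r * ω := by
    have h1 : σ = σ * (4 * (k + 1)) * r := by
      rw [mul_assoc, mul_comm _ r, hr1, mul_one]
    rw [h1]
    nlinarith
  have h1 : (1 - r) * p ≤ a := by nlinarith
  have h2 : (1 - r) * q ≤ b := by nlinarith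
  have hp0 : 0 < p := by linarith
  have hq0 : 0 < q := by linarith
  have h3 : ((1 - r) * p) ^ k * ((1 - r) * q) ≤ a ^ k * b := by
    refine mul_le_mul (pow_le_pow_left₀ (by nlinarith) h1 k) h2 (by nlinarith) ?_
    exact pow_nonneg (by nlinarith) _
  have h4 : 3 / 4 ≤ (1 - r) ^ (k + 1) := by
    have h5 := one_add_mul_le_pow (a := -r) (by linarith) (k + 1)
    have h6 : (1 : ℝ) + ((k + 1 : ℕ) : ℝ) * -r = 3 / 4 := by
      push_cast
      linarith
    rw [h6] at h5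
    rw [sub_eq_add_neg]
    exact h5
  calc 3 / 4 * (p ^ k * q) ≤ (1 - r) ^ (k + 1) * (p ^ k * q) := mul_le_mul_of_nonneg_right h4 (by positivity)
    _ = ((1 - r) * p) ^ k * ((1 - r) * q) := by
      rw [mul_pow, pow_succ]
      ring
    _ ≤ a ^ k * b := h3

theorem mu_av (A : Set (ZMod d)ˣ) : TS.mu A = av (A.indicator fun _ => (1 : ℝ)) := by
  classical
  have h1 : A = ↑(univ.filter fun x => x ∈ A) := by
    ext x
    rw [coe_filter]
    simp
  have h2 : A.ncard = (univ.filter fun x => x ∈ A).card := by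
    conv_lhs => rw [h1]
    rw [Set.ncard_coe_finset]
  unfold TS.mu av
  rw [h2, card_filter]
  push_cast
  refine congrArg (· / _) (sum_congr rfl fun x _ => ?_)
  by_cases h : x ∈ A
  · rw [if_pos h, Set.indicator_of_mem h]
  · rw [if_neg h, Set.indicator_of_notMem h]

theorem markov {F : (ZMod d)ˣ → ℝ} (hF : ∀ x, 0 ≤ F x) {t : ℝ} (ht : 0 < t) : TS.mu {x | t ≤ F x} ≤ av F / t := by
  rw [mu_av, le_div_iff₀ ht, mul_comm, ← av_mul_left]
  refine av_mono fun x => ?_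
  by_cases h : x ∈ {x | t ≤ F x}
  · rw [Set.indicator_of_mem h, mul_one]
    exact h
  · rw [Set.indicator_of_notMem h, mul_zero]
    exact hF x

/-- the classes of one parity without a representation are few -/
theorem struct (ψ : (ZMod d)ˣ →* ℤˣ) (s : ℤˣ) (k : ℕ) (P T P' W : Finset ℕ) {β : (ZMod d)ˣ → ℝ} (hβ : ∀ g, 0 ≤ β g)
    {κ σ ω ε E2 : ℝ} (hω : 0 < ω) (hP : ω ≤ Wt P) (hP' : ω ≤ Wt P') (hT0 : 0 < Wt T) (hσ0 : 0 ≤ σ) (hσ : σ * (4 * (k + 1)) ≤ ω)
    (hPσ : qs ψ 1 P ≤ σ) (hPσ' : qs ψ 1 P' ≤ σ) (hT : ∀ t ∈ T, ψ (ucl d t) = 1) (hκ : 0 < κ)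
    (hε : TS.mu (symmDiff {x | κ < sm β W x} {x | ψ x = s}) ≤ ε)
    (hE2 : av (fun x => (mus (List.replicate k P ++ [T, P', W]) (dl d) x - mus (List.replicate k P ++ [T, P', W]) β x) ^ 2) ≤ E2) :
    TS.mu {x | ψ x = s * (-1) ^ (k + 1) ∧ mus (List.replicate k P ++ [T, P', W]) (dl d) x = 0} ≤
      4 * ε + 4 * E2 / (κ * (Wt P ^ k * (Wt T * Wt P'))) ^ 2 := by
  classical
  obtain ⟨m, hm⟩ : ∃ m : ℝ, m = Wt P ^ k * (Wt T * Wt P') := ⟨_, rfl⟩
  have hP0 : 0 < Wt P := by linarith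
  have hP'0 : 0 < Wt P' := by linarith
  have hm0 : 0 < m := by
    rw [hm]
    positivity
  rw [← hm]
  obtain ⟨Bd, hBd⟩ : ∃ Bd : Set (ZMod d)ˣ, Bd = symmDiff {x | κ < sm β W x} {x | ψ x = s} := ⟨_, rfl⟩
  obtain ⟨R, hR⟩ : ∃ R : (ZMod d)ˣ → ℝ, R = mus (List.replicate k P ++ [T, P']) (Bd.indicator fun _ => (1 : ℝ)) := ⟨_, rfl⟩
  have hI0 : ∀ x, 0 ≤ Bd.indicator (fun _ => (1 : ℝ)) x := fun x => Set.indicator_nonneg (fun _ _ => zero_le_one) x
  have hR0 : ∀ x, 0 ≤ R x := by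
    rw [hR]
    exact fun x => mus_nonneg _ hI0 x
  have hRav : av R = m * TS.mu Bd := by
    rw [hR, av_mus, mu_av, hm]
    congr 1
    rw [List.map_append, List.prod_append, List.map_replicate, List.prod_replicate, List.map_cons, List.map_cons, List.map_nil,
      List.prod_cons, List.prod_cons, List.prod_nil, mul_one]
  -- the pointwise lower bound
  have hlow : ∀ x, κ * (Es ψ s x - Bd.indicator (fun _ => (1 : ℝ)) x) ≤ sm β W x := by
    intro x
    have h0 := sm_nonneg hβ W x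
    by_cases h1 : ψ x = s
    · by_cases h2 : κ < sm β W x
      · have h3 : x ∉ Bd := by
          rw [hBd, Set.mem_symmDiff]
          rintro (⟨-, h⟩ | ⟨-, h⟩)
          · exact h h1
          · exact h h2
        rw [Set.indicator_of_notMem h3]
        unfold Es
        rw [if_pos h1]
        linarith
      · have h3 : x ∈ Bd := by
          rw [hBd, Set.mem_symmDiff]
          exact Or.inr ⟨h1, h2⟩
        rw [Set.indicator_of_mem h3]
        unfold Es
        rw [if_pos h1]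
        linarith
    · unfold Es
      rw [if_neg h1]
      have h4 := hI0 x
      nlinarith
  have hsplit : ∀ F : (ZMod d)ˣ → ℝ, mus (List.replicate k P ++ [T, P', W]) F = mus (List.replicate k P ++ [T, P']) (mu W F) := by
    intro F
    have h1 : List.replicate k P ++ [T, P', W] = (List.replicate k P ++ [T, P']) ++ [W] := by
      rw [List.append_assoc]
      rfl
    rw [h1, mus_append]
    rfl
  have hft : ∀ x, κ * (3 / 4 * m * Es ψ (s * (-1) ^ (k + 1)) x - R x) ≤ mus (List.replicate k P ++ [T, P', W]) β x := by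
    intro x
    rw [hsplit]
    have h1 : mus (List.replicate k P ++ [T, P']) (fun y => κ * (Es ψ s y - Bd.indicator (fun _ => (1 : ℝ)) y)) x ≤
        mus (List.replicate k P ++ [T, P']) (mu W β) x := mus_mono _ hlow x
    rw [mus_smul _ κ (fun y => Es ψ s y - Bd.indicator (fun _ => (1 : ℝ)) y), mus_sub] at h1
    refine le_trans (mul_le_mul_of_nonneg_left ?_ hκ.le) h1
    have h2 := mus_lower ψ s k P T P' hT x
    have h3 := mass_lower (k := k) (p := Wt P) (q := Wt P') (a := qs ψ (-1) P) (b := qs ψ (-1) P') hω hP hP' hσ0 hσ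
      (by rw [qs_compl]; linarith) (by rw [qs_compl]; linarith)
    have h4 : 3 / 4 * m * Es ψ (s * (-1) ^ (k + 1)) x ≤
        qs ψ (-1) P ^ k * (Wt T * qs ψ (-1) P') * Es ψ (s * (-1) ^ (k + 1)) x := by
      refine mul_le_mul_of_nonneg_right ?_ (Es_nonneg _ _ _)
      rw [hm]
      have h5 := mul_le_mul_of_nonneg_left h3 hT0.le
      calc 3 / 4 * (Wt P ^ k * (Wt T * Wt P')) = Wt T * (3 / 4 * (Wt P ^ k * Wt P')) := by ring
        _ ≤ Wt T * (qs ψ (-1) P ^ k * qs ψ (-1) P') := h5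
        _ = _ := by ring
    rw [hR]
    linarith
  have hsub : {x | ψ x = s * (-1) ^ (k + 1) ∧ mus (List.replicate k P ++ [T, P', W]) (dl d) x = 0} ⊆
      {x | m / 4 ≤ R x} ∪ {x | (κ * m / 2) ^ 2 ≤
        (mus (List.replicate k P ++ [T, P', W]) (dl d) x - mus (List.replicate k P ++ [T, P', W]) β x) ^ 2} := by
    rintro x ⟨h1, h2⟩
    by_cases h3 : m / 4 ≤ R x
    · exact Or.inl h3
    · refine Or.inr ?_
      rw [Set.mem_ofPred_eq, h2, zero_sub, neg_sq]
      have h4 := hft x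
      unfold Es at h4
      rw [if_pos h1, mul_one] at h4
      push Not at h3
      have h5 : κ * m / 2 ≤ mus (List.replicate k P ++ [T, P', W]) β x := by
        refine le_trans ?_ h4
        have h6 : m / 2 ≤ 3 / 4 * m - R x := by linarith
        have h7 := mul_le_mul_of_nonneg_left h6 hκ.le
        linarith
      exact pow_le_pow_left₀ (by positivity) h5 2
  have h1 := markov (d := d) hR0 (show 0 < m / 4 by positivity)
  have h2 := markov (d := d) (F := fun x => (mus (List.replicate k P ++ [T, P', W]) (dl d) x - mus (List.replicate k P ++ [T, P', W]) β x) ^ 2)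
    (fun x => sq_nonneg _) (show 0 < (κ * m / 2) ^ 2 by positivity)
  refine (TS.mu_mono hsub).trans ((TS.mu_union _ _).trans (add_le_add (h1.trans ?_) (h2.trans ?_)))
  · rw [hRav, div_le_iff₀ (by positivity)]
    have h3 : TS.mu Bd ≤ ε := by
      rw [hBd]
      exact hε
    nlinarith
  · rw [div_le_iff₀ (by positivity)]
    have h3 : 4 * E2 / (κ * m) ^ 2 * (κ * m / 2) ^ 2 = E2 := by
      have h4 : κ * m ≠ 0 := by positivity
      have h5 : (κ * m / 2) ^ 2 = (κ * m) ^ 2 / 4 := by ring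
      rw [h5, div_mul_div_comm, mul_comm (4 * E2), mul_comm ((κ * m) ^ 2) 4, ← mul_assoc, mul_comm ((κ * m) ^ 2) 4,
        mul_assoc 4 ((κ * m) ^ 2) E2, mul_div_mul_left _ _ (by norm_num : (4 : ℝ) ≠ 0)]
      rw [mul_div_assoc]
      field_simp
    rw [h3]
    exact hE2

end

end Pool.Agent.Lib.MP_42948a_nt.TR
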