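import Pool.Agent.Lib.MP_42948a_nt.TR.S8
import Pool.Agent.Lib.MP_42948a_nt.TR.S3
import Pool.Agent.Lib.MP_42948a_nt.TF.E2
import Pool.Agent.Lib.MP_42948a_nt.OA.EJ

/-!
# Auxiliary lemmas for the wrong parity
-/

set_option linter.unusedSectionVars false

namespace Pool.Agent.Lib.MP_42948a_nt.TR

open Finset Pool.Agent.Lib.MP_42948a_nt.OA Pool.Agent.Lib.MP_42948a_nt.TQ Pool.Agent.Lib.MP_42948a_nt.PS
  Pool.Agent.Lib.MP_42948a_nt.TF

theorem rough_prime {z p : ℕ} (hp : p.Prime) (h : z < p) : Rough z p := by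
  refine ⟨hp.pos, fun q hq hqp => ?_⟩
  rw [(Nat.prime_dvd_prime_iff_eq hq hp).1 hqp]
  exact h

theorem rough_le {z z' n : ℕ} (h : z ≤ z') (hn : Rough z' n) : Rough z n :=
  ⟨hn.1, fun p hp hpn => lt_of_le_of_lt h (hn.2 p hp hpn)⟩

theorem chi_one_ucl {d : ℕ} (ψ : (ZMod d)ˣ →* ℤˣ) {n : ℕ} (h : chi ψ n = 1) : n.Coprime d ∧ ψ (ucl d n) = 1 := by
  have hc : n.Coprime d := by
    by_contra h1
    rw [chi_noncoprime ψ n h1] at h
    norm_num at h
  refine ⟨hc, ?_⟩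
  have h1 := chi_eq ψ n (ucl d n) (ucl_val hc).symm
  rw [h] at h1
  rcases Int.units_eq_one_or (ψ (ucl d n)) with h2 | h2
  · exact h2
  · rw [h2] at h1
    norm_num at h1

theorem rep_prod {z : ℕ} (L : List (Finset ℕ × ℕ × ℝ)) (hg : ∀ A ∈ L, (0 : ℝ) ≤ A.2.2)
    (hL : ∀ A ∈ L, ∀ n ∈ A.1, Rough z n ∧ ArithmeticFunction.cardFactors n = A.2.1 ∧ (n : ℝ) ≤ A.2.2) (ns : List ℕ)
    (h : List.Forall₂ (fun n A => n ∈ A) ns (L.map Prod.fst)) :
    Rough z ns.prod ∧ ArithmeticFunction.cardFactors ns.prod = (L.map fun A => A.2.1).sum ∧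
      (ns.prod : ℝ) ≤ (L.map fun A => A.2.2).prod := by
  induction L generalizing ns with
  | nil =>
    rw [List.map_nil] at h
    rw [List.forall₂_nil_right_iff.1 h]
    refine ⟨Rough.one z, ?_, ?_⟩
    · rw [List.prod_nil, List.map_nil, List.sum_nil, ArithmeticFunction.cardFactors_one]
    · rw [List.prod_nil, List.map_nil, List.prod_nil, Nat.cast_one]
  | cons A L ih =>
    rw [List.map_cons] at h
    obtain ⟨n, ns', hn, hns, rfl⟩ := List.forall₂_cons_right_iff.1 h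
    obtain ⟨i1, i2, i3⟩ := ih (fun B hB => hg B (List.mem_cons_of_mem _ hB)) (fun B hB => hL B (List.mem_cons_of_mem _ hB)) ns' hns
    obtain ⟨a1, a2, a3⟩ := hL A List.mem_cons_self n hn
    refine ⟨?_, ?_, ?_⟩
    · rw [List.prod_cons]
      exact a1.mul i1
    · rw [List.prod_cons, ArithmeticFunction.cardFactors_mul a1.pos.ne' i1.pos.ne', List.map_cons, List.sum_cons, a2, i2]
    · rw [List.prod_cons, List.map_cons, List.prod_cons, Nat.cast_mul]
      exact mul_le_mul a3 i3 (Nat.cast_nonneg _) (hg A List.mem_cons_self)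

theorem Wt_le_log (A : Finset ℕ) (N : ℕ) (h : ∀ n ∈ A, 1 ≤ n ∧ n ≤ N) : Wt A ≤ 1 + Real.log N := by
  have h1 : A ⊆ Icc 1 N := fun n hn => Finset.mem_Icc.2 (h n hn)
  have h2 : Wt A ≤ ∑ n ∈ Icc 1 N, 1 / (n : ℝ) :=
    Finset.sum_le_sum_of_subset_of_nonneg h1 fun n _ _ => by positivity
  refine h2.trans ?_
  have h3 := harmonic_le_one_add_log N
  rw [harmonic_eq_sum_Icc] at h3
  push_cast at h3
  refine le_trans (le_of_eq ?_) h3
  exact Finset.sum_congr rfl fun n _ => one_div _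

theorem qs_le {d : ℕ} (ψ : (ZMod d)ˣ →* ℤˣ) {A B : Finset ℕ} (h : A ⊆ B) {σ : ℝ}
    (hB : ∑ p ∈ B.filter (fun p => ψ (ucl d p) = 1), 1 / (p : ℝ) ≤ σ) : qs ψ 1 A ≤ σ := by
  refine le_trans ?_ hB
  unfold qs
  exact Finset.sum_le_sum_of_subset_of_nonneg (Finset.filter_subset_filter _ h) fun n _ _ => by positivity

theorem ev_pow (c : ℝ) (hc : 0 < c) (C : ℝ) : ∃ d0 : ℕ, ∀ d : ℕ, d0 ≤ d → C ≤ (d : ℝ) ^ c :=
  Filter.eventually_atTop.1 (((tendsto_rpow_atTop hc).comp tendsto_natCast_atTop_atTop).eventually_ge_atTop C)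

/-- the weight of the primes of a dyadic interval -/
theorem Wt_dyadic {A : Finset ℕ} {D : ℕ} (hA : ∀ n ∈ A, 1 ≤ n ∧ n ≤ 2 * D) {q : ℝ} (hD : 1 ≤ D) (h : q * D < (A.card : ℝ)) :
    q / 2 ≤ Wt A := by
  have hD0 : (0 : ℝ) < D := by exact_mod_cast hD
  have h1 : (A.card : ℝ) * (1 / (2 * D)) ≤ Wt A := by
    unfold Wt
    rw [← nsmul_eq_mul, ← Finset.sum_const]
    refine Finset.sum_le_sum fun n hn => ?_
    obtain ⟨h2, h3⟩ := hA n hn
    have h4 : (0 : ℝ) < n := by exact_mod_cast h2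
    refine one_div_le_one_div_of_le h4 ?_
    exact_mod_cast h3
  refine le_trans ?_ h1
  have h2 : q / 2 = q * D * (1 / (2 * D)) := by
    field_simp
  rw [h2]
  exact mul_le_mul_of_nonneg_right h.le (by positivity)

end Pool.Agent.Lib.MP_42948a_nt.TR
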